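import Pool.Agent.Helper88.D4.Stmts

/-!
# D4: the minimal relation lemma (MR)
-/

set_option autoImplicit false

namespace Pool.Agent.Helper85.D4

open Module Pool.Agent.Helper37.SD Pool.Agent.Helper88.D4

variable {K : Type} [Field K] [Algebra ℂ K]

/-- The chain rule. -/
theorem der_aeval (D : Derivation ℂ K K) {n : ℕ} (z : Fin n → K) (P : MvPolynomial (Fin n) ℂ) :
    D (MvPolynomial.aeval z P) =
      ∑ i, MvPolynomial.aeval z (MvPolynomial.pderiv i P) * D (z i) := by
  classical
  induction P using MvPolynomial.induction_on with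
  | C a =>
    rw [MvPolynomial.aeval_C, D.map_algebraMap]
    refine (Finset.sum_eq_zero fun i _ => ?_).symm
    rw [MvPolynomial.pderiv_C, map_zero, zero_mul]
  | add P Q hP hQ =>
    rw [map_add, map_add, hP, hQ, ← Finset.sum_add_distrib]
    refine Finset.sum_congr rfl fun i _ => ?_
    rw [map_add, map_add, add_mul]
  | mul_X P j hP =>
    rw [map_mul, MvPolynomial.aeval_X, Derivation.leibniz, hP]
    have h1 : ∀ i, MvPolynomial.aeval z (MvPolynomial.pderiv i (P * MvPolynomial.X j)) * D (z i) =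
        z j * (MvPolynomial.aeval z (MvPolynomial.pderiv i P) * D (z i)) +
          (if i = j then MvPolynomial.aeval z P * D (z i) else 0) := by
      intro i
      rw [Derivation.leibniz, MvPolynomial.pderiv_X]
      simp only [smul_eq_mul, map_add, map_mul, MvPolynomial.aeval_X]
      by_cases h : i = j
      · subst h
        simp
        ring
      · rw [if_neg h]
        have h2 : (Pi.single i (1 : MvPolynomial (Fin n) ℂ) : Fin n → MvPolynomial (Fin n) ℂ) j
            = 0 := by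
          rw [Pi.single_apply, if_neg (fun h' => h h'.symm)]
        rw [h2, map_zero]
        ring
    rw [Finset.sum_congr rfl fun i _ => h1 i, Finset.sum_add_distrib, Finset.sum_ite_eq' Finset.univ j,
      if_pos (Finset.mem_univ j), ← Finset.mul_sum]
    simp only [smul_eq_mul]
    ring

/-- Polynomials in elements of value `≥ 0` have value `≥ 0`. -/
theorem ge_aeval (u : RVal K) {n : ℕ} {z : Fin n → K} (hz : ∀ i, u.Ge 0 (z i))
    (P : MvPolynomial (Fin n) ℂ) : u.Ge 0 (MvPolynomial.aeval z P) := by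
  classical
  induction P using MvPolynomial.induction_on with
  | C a =>
    rw [MvPolynomial.aeval_C]
    by_cases ha : a = 0
    · subst ha
      rw [map_zero]
      exact Or.inl rfl
    · exact Or.inr (by rw [u.map_const a ha])
  | add P Q hP hQ =>
    rw [map_add]
    exact u.ge_add hP hQ
  | mul_X P j hP =>
    rw [map_mul, MvPolynomial.aeval_X]
    have h := RVal.ge_mul (v := u) hP (hz j)
    rwa [add_zero] at h

/-- A derivative has smaller degree or is zero. -/
theorem totalDegree_pderiv_lt {n : ℕ} (i : Fin n) (P : MvPolynomial (Fin n) ℂ)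
    (h : MvPolynomial.pderiv i P ≠ 0) :
    (MvPolynomial.pderiv i P).totalDegree < P.totalDegree := by
  classical
  have h1 : ∀ m ∈ (MvPolynomial.pderiv i P).support, m.sum (fun _ e => e) < P.totalDegree := by
    intro m hm
    rw [MvPolynomial.mem_support_iff, MvPolynomial.coeff_pderiv] at hm
    have h2 : MvPolynomial.coeff (m + Finsupp.single i 1) P ≠ 0 := fun h3 => hm (by rw [h3, zero_mul])
    have h3 := MvPolynomial.le_totalDegree (MvPolynomial.mem_support_iff.mpr h2)
    have h4 : (m + Finsupp.single i 1).sum (fun _ e => e) = m.sum (fun _ e => e) + 1 := by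
      rw [Finsupp.sum_add_index' (fun _ => rfl) (fun _ _ _ => rfl), Finsupp.sum_single_index rfl]
    omega
  obtain ⟨m, hm⟩ := MvPolynomial.support_nonempty.mpr h
  have h5 : 0 < P.totalDegree := lt_of_le_of_lt (Nat.zero_le _) (h1 m hm)
  exact (Finset.sup_lt_iff (by simpa using h5)).mpr h1

/-- If all derivatives are zero, the polynomial is constant. -/
theorem eq_C_of_pderiv {n : ℕ} (P : MvPolynomial (Fin n) ℂ)
    (h : ∀ i, MvPolynomial.pderiv i P = 0) : P = MvPolynomial.C (MvPolynomial.coeff 0 P) := by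
  classical
  ext m
  rw [MvPolynomial.coeff_C]
  by_cases hm : 0 = m
  · rw [if_pos hm, ← hm]
  · rw [if_neg hm]
    obtain ⟨i, hi⟩ : ∃ i, m i ≠ 0 := by
      by_contra h1
      push Not at h1
      exact hm (Finsupp.ext fun i => (h1 i).symm)
    have h2 : MvPolynomial.coeff (m - Finsupp.single i 1) (MvPolynomial.pderiv i P) = 0 := by
      rw [h i, MvPolynomial.coeff_zero]
    rw [MvPolynomial.coeff_pderiv] at h2
    have h3 : m - Finsupp.single i 1 + Finsupp.single i 1 = m := by
      ext j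
      simp only [Finsupp.add_apply, Finsupp.tsub_apply, Finsupp.single_apply]
      split_ifs with h4
      · subst h4
        omega
      · simp
    rw [h3] at h2
    rcases mul_eq_zero.mp h2 with h4 | h4
    · exact h4
    · exfalso
      exact Nat.cast_add_one_ne_zero _ h4

/-- The values on `ℂ[z]` are not all zero. -/
theorem exists_ge_one (htr : Algebra.trdeg ℂ K = 4) (u : RVal K) {p : K} (hp : p ≠ 0)
    (hup : u.val p = 1) (hint : ∀ x, x ≠ 0 → ∃ n : ℤ, u.val x = n) (z : Fin 4 → K)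
    (hz : ∀ i, u.Ge 0 (z i)) :
    ∃ P : MvPolynomial (Fin 4) ℂ, P ≠ 0 ∧ u.Ge 1 (MvPolynomial.aeval z P) := by
  classical
  by_contra hcon
  push Not at hcon
  have hval : ∀ P : MvPolynomial (Fin 4) ℂ, P ≠ 0 → MvPolynomial.aeval z P ≠ 0 ∧
      u.val (MvPolynomial.aeval z P) = 0 := by
    intro P hP
    have h1 := hcon P hP
    have h2 : MvPolynomial.aeval z P ≠ 0 := fun h => h1 (Or.inl h)
    refine ⟨h2, ?_⟩
    obtain ⟨n, hn⟩ := hint _ h2
    have h3 : ¬ (1 ≤ u.val (MvPolynomial.aeval z P)) := fun h => h1 (Or.inr h)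
    have h4 : 0 ≤ u.val (MvPolynomial.aeval z P) := (ge_aeval u hz P).resolve_left h2
    rw [hn] at h3 h4 ⊢
    have h5 : 0 ≤ n := by exact_mod_cast h4
    have h6 : ¬ (1 ≤ n) := fun h => h3 (by exact_mod_cast h)
    have h7 : n = 0 := by omega
    rw [h7, Int.cast_zero]
  have hai : AlgebraicIndependent ℂ z := by
    rw [algebraicIndependent_iff]
    intro P hP
    by_contra hP0
    exact (hval P hP0).1 hP
  have htb : IsTranscendenceBasis ℂ z := by
    refine AlgebraicIndependent.isTranscendenceBasis_of_trdeg_le_of_finite hai ?_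
    rw [htr]
    simp
  have halg := htb.isAlgebraic
  obtain ⟨f, hf0, hf⟩ := (halg.isAlgebraic p)
  -- the lowest coefficient
  have hne : f.support.Nonempty := Polynomial.support_nonempty.mpr hf0
  obtain ⟨i₀, hi₀, hmin⟩ : ∃ i ∈ f.support, ∀ j ∈ f.support, i ≤ j :=
    ⟨f.support.min' hne, f.support.min'_mem hne, fun j hj => f.support.min'_le j hj⟩
  have hco : ∀ j ∈ f.support, ((f.coeff j : Algebra.adjoin ℂ (Set.range z)) : K) ≠ 0 ∧
      u.val ((f.coeff j : Algebra.adjoin ℂ (Set.range z)) : K) = 0 := by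
    intro j hj
    have h0 : ∀ x : K, x ∈ Algebra.adjoin ℂ (Set.range z) →
        ∃ Q : MvPolynomial (Fin 4) ℂ, MvPolynomial.aeval z Q = x := by
      intro x hx
      rw [Algebra.adjoin_range_eq_range_aeval] at hx
      exact hx
    obtain ⟨Q, hQ⟩ := h0 _ (f.coeff j).2
    have hQ' : MvPolynomial.aeval z Q = ((f.coeff j : Algebra.adjoin ℂ (Set.range z)) : K) := hQ
    have h2 : Q ≠ 0 := by
      rintro rfl
      rw [map_zero] at hQ'
      exact (Polynomial.mem_support_iff.mp hj) (Subtype.ext hQ'.symm)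
    rw [← hQ']
    exact hval Q h2
  have hsum : ∑ j ∈ f.support, ((f.coeff j : Algebra.adjoin ℂ (Set.range z)) : K) * p ^ j = 0 := by
    have h1 : Polynomial.aeval p f = ∑ j ∈ f.support,
        ((f.coeff j : Algebra.adjoin ℂ (Set.range z)) : K) * p ^ j := by
      rw [Polynomial.aeval_eq_sum_range]
      rw [Finset.sum_subset (Polynomial.supp_subset_range_natDegree_succ)]
      · refine Finset.sum_congr rfl fun j _ => ?_
        rw [Algebra.smul_def]
        rfl
      · intro j _ hj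
        rw [Polynomial.notMem_support_iff.mp hj]
        simp
    rw [← h1, hf]
  rw [← Finset.add_sum_erase _ _ hi₀] at hsum
  have hlow : u.val (((f.coeff i₀ : Algebra.adjoin ℂ (Set.range z)) : K) * p ^ i₀) = i₀ := by
    rw [u.map_mul _ _ (hco i₀ hi₀).1 (pow_ne_zero _ hp), (hco i₀ hi₀).2, RVal.val_pow _ hp, hup]
    ring
  have hne0 : ((f.coeff i₀ : Algebra.adjoin ℂ (Set.range z)) : K) * p ^ i₀ ≠ 0 :=
    mul_ne_zero (hco i₀ hi₀).1 (pow_ne_zero _ hp)
  have hhigh : u.Ge (i₀ + 1) (∑ j ∈ f.support.erase i₀,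
      ((f.coeff j : Algebra.adjoin ℂ (Set.range z)) : K) * p ^ j) := by
    refine RVal.ge_sum _ _ _ fun j hj => Or.inr ?_
    have hj' := Finset.mem_of_mem_erase hj
    rw [u.map_mul _ _ (hco j hj').1 (pow_ne_zero _ hp), (hco j hj').2, RVal.val_pow _ hp, hup]
    have h1 : i₀ ≤ j := hmin j hj'
    have h2 : i₀ ≠ j := (Finset.ne_of_mem_erase hj).symm
    have h3 : i₀ + 1 ≤ j := by omega
    have h4 : (i₀ : ℝ) + 1 ≤ j := by exact_mod_cast h3
    linarith
  have h1 : ∑ j ∈ f.support.erase i₀,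
      ((f.coeff j : Algebra.adjoin ℂ (Set.range z)) : K) * p ^ j =
        -(((f.coeff i₀ : Algebra.adjoin ℂ (Set.range z)) : K) * p ^ i₀) := by
    linear_combination hsum
  rw [h1] at hhigh
  rcases hhigh with h2 | h2
  · exact hne0 (neg_eq_zero.mp h2)
  · rw [RVal.val_neg, hlow] at h2
    linarith

/-- The minimal relation. -/
theorem mr (htr : Algebra.trdeg ℂ K = 4) (u : RVal K) {p : K} (hp : p ≠ 0)
    (hup : u.val p = 1) (hint : ∀ x, x ≠ 0 → ∃ n : ℤ, u.val x = n) (z : Fin 4 → K)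
    (hz : ∀ i, u.Ge 0 (z i)) :
    ∃ P : MvPolynomial (Fin 4) ℂ, P ≠ 0 ∧ u.Ge 1 (MvPolynomial.aeval z P) ∧
      ∀ Q : MvPolynomial (Fin 4) ℂ, Q ≠ 0 → Q.totalDegree < P.totalDegree →
        MvPolynomial.aeval z Q ≠ 0 ∧ u.val (MvPolynomial.aeval z Q) = 0 := by
  classical
  let S : Set ℕ := {d | ∃ P : MvPolynomial (Fin 4) ℂ, P ≠ 0 ∧ u.Ge 1 (MvPolynomial.aeval z P) ∧
    P.totalDegree = d}
  have hS : S.Nonempty := by
    obtain ⟨P, hP, h1⟩ := exists_ge_one htr u hp hup hint z hz
    exact ⟨_, P, hP, h1, rfl⟩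
  obtain ⟨P, hP, h1, h2⟩ := Nat.sInf_mem hS
  refine ⟨P, hP, h1, ?_⟩
  intro Q hQ hlt
  have h3 : ¬ u.Ge 1 (MvPolynomial.aeval z Q) := by
    intro h4
    have h5 : sInf S ≤ Q.totalDegree := Nat.sInf_le ⟨Q, hQ, h4, rfl⟩
    omega
  have h4 : MvPolynomial.aeval z Q ≠ 0 := fun h => h3 (Or.inl h)
  refine ⟨h4, ?_⟩
  obtain ⟨n, hn⟩ := hint _ h4
  have h5 : ¬ (1 ≤ u.val (MvPolynomial.aeval z Q)) := fun h => h3 (Or.inr h)
  have h6 : 0 ≤ u.val (MvPolynomial.aeval z Q) := (ge_aeval u hz Q).resolve_left h4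
  rw [hn] at h5 h6 ⊢
  have h7 : 0 ≤ n := by exact_mod_cast h6
  have h8 : ¬ (1 ≤ n) := fun h => h5 (by exact_mod_cast h)
  have h9 : n = 0 := by omega
  rw [h9, Int.cast_zero]

/-- The minimal relation with its derivatives: a nonzero derivative has value zero, and some
derivative is not zero. -/
theorem mr' (htr : Algebra.trdeg ℂ K = 4) (u : RVal K) {p : K} (hp : p ≠ 0)
    (hup : u.val p = 1) (hint : ∀ x, x ≠ 0 → ∃ n : ℤ, u.val x = n) (z : Fin 4 → K)
    (hz : ∀ i, u.Ge 0 (z i)) :
    ∃ P : MvPolynomial (Fin 4) ℂ, P ≠ 0 ∧ u.Ge 1 (MvPolynomial.aeval z P) ∧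
      (∀ i, MvPolynomial.pderiv i P = 0 ∨ MvPolynomial.aeval z (MvPolynomial.pderiv i P) ≠ 0 ∧
        u.val (MvPolynomial.aeval z (MvPolynomial.pderiv i P)) = 0) ∧
      ∃ i, MvPolynomial.pderiv i P ≠ 0 := by
  obtain ⟨P, hP, h1, h2⟩ := mr htr u hp hup hint z hz
  refine ⟨P, hP, h1, ?_, ?_⟩
  · intro i
    by_cases h : MvPolynomial.pderiv i P = 0
    · exact Or.inl h
    · exact Or.inr (h2 _ h (totalDegree_pderiv_lt i P h))
  · by_contra hcon
    push Not at hcon
    have h3 := eq_C_of_pderiv P hcon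
    have h4 : MvPolynomial.coeff 0 P ≠ 0 := by
      intro h5
      rw [h5, map_zero] at h3
      exact hP h3
    rw [h3, MvPolynomial.aeval_C] at h1
    rcases h1 with h5 | h5
    · exact (map_ne_zero (algebraMap ℂ K)).mpr h4 h5
    · rw [u.map_const _ h4] at h5
      linarith

end Pool.Agent.Helper85.D4
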