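import Pool.Agent.Helper46.D4.Stmts
import Pool.Agent.Helper46.D4.EX2t
import Pool.Agent.Helper74.D4.P
import Pool.Agent.Helper76.D4.Base
import Pool.Agent.Helper12.D4.Ai

/-!
# D4, block B~: `db ∧ dh` is regular (S_TH), `b` is integral over `R ⊗ ℂ(h)` (S_INT)
-/

set_option autoImplicit false

namespace Pool.Agent.Helper85.D4

open Module Pool.Agent.Helper37.SD Pool.Agent.Helper88.D4 Pool.Agent.Helper46.D4
open Pool.Agent.Helper12.D4

variable {K : Type} [Field K] [Algebra ℂ K]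

/-- The value of a derivation in a frame. -/
theorem frame_apply {J : Bra K} (hA : IsAlt J) (ht : Algebra.trdeg ℂ K = 4) {x : Fin 4 → K}
    (hx : brk J x ≠ 0) (E : Derivation ℂ K K) (f : K) :
    E f = ∑ i, E (x i) * dfr J x i f := by
  conv_lhs => rw [dfr_sum hA ht hx E]
  rw [der_sum]
  rfl

/-- The fields of the dual frame commute. -/
theorem frame_comm {J : Bra K} (hA : IsAlt J) (ht : Algebra.trdeg ℂ K = 4) {x : Fin 4 → K}
    (hx : brk J x ≠ 0) (i j : Fin 4) (f : K) :
    dfr J x i (dfr J x j f) = dfr J x j (dfr J x i f) := by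
  have h1 : ⁅dfr J x i, dfr J x j⁆ f = 0 := by
    rw [frame_apply hA ht hx]
    refine Finset.sum_eq_zero fun k _ => ?_
    have h2 : ⁅dfr J x i, dfr J x j⁆ (x k) = 0 := by
      rw [Derivation.commutator_apply, dfr_apply hA hx, dfr_apply hA hx]
      have h3 : ∀ (D : Derivation ℂ K K) (p : Prop) [Decidable p],
          D (if p then (1 : K) else 0) = 0 := by
        intro D p _
        split_ifs
        · exact D.map_one_eq_zero
        · exact map_zero D
      rw [h3, h3, sub_self]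
    rw [h2, zero_mul]
  rw [Derivation.commutator_apply] at h1
  exact sub_eq_zero.mp h1

/-- `[b, h, y, z] = ∑ [αᵢ, xᵢ, y, z]` if `b dh = ∑ αᵢ dxᵢ`. -/
theorem bracket_frame {J : Bra K} (hA : IsAlt J) (ht : Algebra.trdeg ℂ K = 4) {x : Fin 4 → K}
    (hx : brk J x ≠ 0) (b h y z : K) :
    J h y z b = ∑ j, J (x j) y z (b * dfr J x j h) := by
  -- the biderivation
  have hsw : ∀ f g, J f y z g = -(J g y z f) := fun f g => l1 hA g f y z
  have e1 : ∀ j, J (x j) y z (b * dfr J x j h) =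
      b * J (x j) y z (dfr J x j h) + dfr J x j h * J (x j) y z b := by
    intro j
    rw [Derivation.leibniz, smul_eq_mul, smul_eq_mul]
  rw [Finset.sum_congr rfl fun j _ => e1 j, Finset.sum_add_distrib]
  -- the first sum vanishes
  have e2 : ∑ j, b * J (x j) y z (dfr J x j h) = 0 := by
    have e3 : ∀ j, b * J (x j) y z (dfr J x j h) =
        ∑ i, b * (J (x j) y z (x i) * dfr J x i (dfr J x j h)) := by
      intro j
      rw [← Finset.mul_sum, ← frame_apply hA ht hx (J (x j) y z) (dfr J x j h)]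
    rw [Finset.sum_congr rfl fun j _ => e3 j]
    have e4 : ∑ j, ∑ i, b * (J (x j) y z (x i) * dfr J x i (dfr J x j h)) =
        -∑ j, ∑ i, b * (J (x j) y z (x i) * dfr J x i (dfr J x j h)) := by
      conv_lhs => rw [Finset.sum_comm]
      rw [← Finset.sum_neg_distrib]
      refine Finset.sum_congr rfl fun i _ => ?_
      rw [← Finset.sum_neg_distrib]
      refine Finset.sum_congr rfl fun j _ => ?_
      rw [hsw (x j) (x i), frame_comm hA ht hx i j h]
      ring
    exact K2 e4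
  rw [e2, zero_add]
  -- the second sum
  rw [hsw h b, frame_apply hA ht hx (J b y z) h, ← Finset.sum_neg_distrib]
  refine Finset.sum_congr rfl fun j _ => ?_
  rw [hsw (x j) b]
  ring

theorem s_TH (hREG : S_REG) (hUN : S_UN) (hEX1 : S_EX1) : S_TH := by
  intro K _ _ R ξ J a hC α b h hα hreg
  have hA : IsAlt J := hC.alt
  have ht := hC.trdeg
  -- the regularity on `R`
  have hR : ∀ y ∈ R, ∀ z ∈ R, J h y z b ∈ R := by
    intro y hy z hz
    by_contra hcon
    obtain ⟨u, hu, hux⟩ := hEX1 K R hC.frac hC.fg hC.normal _ hcon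
    obtain ⟨p, hp, hp0, hup⟩ := hu.unif
    obtain ⟨x₁, hx₁, x₂, hx₂, x₃, hx₃, hJ0, hJu⟩ := hUN K R ξ J a hC u hu p hp0 hup
    set x : Fin 4 → K := ![p, x₁, x₂, x₃] with hxdef
    have hb : brk J x = J x₁ x₂ x₃ p := rfl
    have hbx : brk J x ≠ 0 := by rw [hb]; exact hJ0
    have hbi : u.Ge 0 (brk J x)⁻¹ := by
      refine Or.inr ?_
      rw [u.val_inv hbx, hb, hJu, neg_zero]
    have hxge : ∀ i, u.Ge 0 (x i) := by
      intro i
      fin_cases i
      · exact Pool.Agent.Helper76.D4.ge_of_mem hu hp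
      · exact Pool.Agent.Helper76.D4.ge_of_mem hu hx₁
      · exact Pool.Agent.Helper76.D4.ge_of_mem hu hx₂
      · exact Pool.Agent.Helper76.D4.ge_of_mem hu hx₃
    have hreg' := (hREG K R ξ J a hC α).1 hreg u hu
    have hαi : ∀ i, u.Ge 0 (α (dfr J x i)) := by
      have key : ∀ (D : Derivation ℂ K K), u.Ge 0 (α D) → u.Ge 0 (α ((brk J x)⁻¹ • D)) := by
        intro D hD
        rw [map_smul, smul_eq_mul]
        have := u.ge_mul hbi hD
        rwa [add_zero] at this
      have key' : ∀ (D : Derivation ℂ K K), u.Ge 0 (α D) → u.Ge 0 (α (-(brk J x)⁻¹ • D)) := by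
        intro D hD
        rw [neg_smul, map_neg]
        exact u.ge_neg (key D hD)
      intro i
      fin_cases i
      · exact key _ (hreg' _ _ _ (hxge 1) (hxge 2) (hxge 3))
      · exact key' _ (hreg' _ _ _ (hxge 0) (hxge 2) (hxge 3))
      · exact key _ (hreg' _ _ _ (hxge 0) (hxge 1) (hxge 3))
      · exact key' _ (hreg' _ _ _ (hxge 0) (hxge 1) (hxge 2))
    have hge : u.Ge 0 (J h y z b) := by
      rw [bracket_frame hA ht hbx b h y z]
      refine u.ge_sum _ _ fun j _ => ?_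
      refine Pool.Agent.Helper76.D4.bra_ge hC hu (hxge j)
        (Pool.Agent.Helper76.D4.ge_of_mem hu hy) (Pool.Agent.Helper76.D4.ge_of_mem hu hz) ?_
      have h1 := hαi j
      rwa [hα] at h1
    rcases hge with h1 | h1
    · exact hcon (by rw [h1]; exact R.zero_mem)
    · linarith
  -- the extension to `Ah R h`
  have hsw : ∀ y z, (-(J h b z)) y = J h y z b := by
    intro y z
    rw [Derivation.neg_apply, ← Pool.Agent.Helper76.D4.sw24 hA h y z b]
  have hsw' : ∀ y z, (J h b y) z = J h y z b := by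
    intro y z
    rw [Pool.Agent.Helper76.D4.sw34 hA h b y z, Pool.Agent.Helper76.D4.sw23 hA h b z y]
    rw [neg_neg, Pool.Agent.Helper76.D4.sw34 hA h z b y, Pool.Agent.Helper76.D4.sw23 hA h z y b,
      neg_neg]
  have hD : ∀ z, (-(J h b z)) h = 0 := by
    intro z
    rw [Derivation.neg_apply, z01 hA, neg_zero]
  have h1 : ∀ y ∈ Ah R h, ∀ z ∈ R, J h y z b ∈ Ah R h := by
    intro y hy z hz
    rw [← hsw]
    refine Pool.Agent.Helper74.D4.der_ah _ (hD z) (fun x hx => ?_) hy
    rw [hsw]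
    exact Pool.Agent.Helper74.D4.le_ah (hR x hx z hz)
  intro y hy z hz
  rw [← hsw']
  refine Pool.Agent.Helper74.D4.der_ah _ (z01 hA h b y) (fun x hx => ?_) hz
  rw [hsw']
  exact h1 y hy x hx

theorem s_INT (hLD : S_LDfr) (hT0 : S_T0) (hTH : S_TH) : S_INT := by
  intro K _ _ R ξ J v a V hC hM α b h hα hreg hh hb0
  by_contra hcon
  have hA : IsAlt J := hC.alt
  obtain ⟨u, hu, hub, huA, y, z, hy, hz, hind⟩ := Pool.Agent.Helper46.D4.s_EX2t K R hC.frac hC.fg
    hC.trdeg h hh b hcon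
  have hg0 : b⁻¹ ≠ 0 := inv_ne_zero hb0
  have hgu : u.val b⁻¹ = -u.val b := u.val_inv hb0
  obtain ⟨hJ0, hLDu⟩ := hLD K J hC.trdeg hA u hu ![h, y, z] hind b⁻¹ hg0
    (by rw [hgu]; linarith)
  have eJ : J (![h, y, z] 0) (![h, y, z] 1) (![h, y, z] 2) b⁻¹ = -(b⁻¹ ^ 2 * J h y z b) := by
    have e1 : J (![h, y, z] 0) (![h, y, z] 1) (![h, y, z] 2) = J h y z := rfl
    rw [e1, Derivation.leibniz_inv, neg_smul, smul_eq_mul]
  rw [eJ] at hJ0 hLDu
  have hJb : J h y z b ≠ 0 := by
    intro h0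
    apply hJ0
    rw [h0, mul_zero, neg_zero]
  have hge : 0 ≤ u.val (J h y z b) := huA _ (hTH K R ξ J a hC α b h hα hreg _ hy _ hz) hJb
  have h0c := (hT0 K R ξ J v a V hC hM u _
    (fun x hx hx0 => huA x (Pool.Agent.Helper74.D4.le_ah hx) hx0) hLDu).1
  rw [u.val_neg, u.map_mul _ _ (pow_ne_zero 2 hg0) hJb, u.val_pow hg0, hgu] at h0c
  push_cast at h0c
  linarith

end Pool.Agent.Helper85.D4
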