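import Pool.Agent.Helper20.D4.RDefs
import Pool.Agent.Helper85.D4.Th

/-!
# Project D4, S_RES, R7: the pull-back of a 1-form
-/

set_option autoImplicit false

namespace Pool.Agent.Helper85.D4

open Module Pool.Agent.Helper37.SD Pool.Agent.Helper20.TS Pool.Agent.Helper88.D4
open Pool.Agent.Helper12.D4 Pool.Agent.Helper20.D4

variable {K : Type} [Field K] [Algebra ℂ K]

/-- A derivation of `K` with values in a vector space in a frame. -/
theorem ext_apply {M : Type} [AddCommGroup M] [Module ℂ M] [Module K M] [IsScalarTower ℂ K M]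
    {J : Bra K} (hA : IsAlt J) (ht : Algebra.trdeg ℂ K = 4) {x : Fin 4 → K}
    (hx : brk J x ≠ 0) (Δ : Derivation ℂ K M) (f : K) :
    Δ f = ∑ k, dfr J x k f • Δ (x k) := by
  rw [← sub_eq_zero, ← Module.forall_dual_apply_eq_zero_iff K]
  intro l
  have h1 := frame_apply hA ht hx (l.compDer Δ) f
  have h2 : ∀ g, (l.compDer Δ) g = l (Δ g) := fun g => rfl
  rw [h2, Finset.sum_congr rfl fun k _ => by rw [h2]] at h1
  rw [map_sub, h1, map_sum, sub_eq_zero]
  refine Finset.sum_congr rfl fun k _ => ?_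
  rw [map_smul, smul_eq_mul, mul_comm]

/-- The value of a 1-form in a frame. -/
theorem one_apply {J : Bra K} (hA : IsAlt J) (ht : Algebra.trdeg ℂ K = 4) {x : Fin 4 → K}
    (hx : brk J x ≠ 0) (η : Helper88.D4.One K) (D : Derivation ℂ K K) :
    η D = ∑ k, η (dfr J x k) * D (x k) := by
  conv_lhs => rw [dfr_sum hA ht hx D]
  rw [map_sum]
  refine Finset.sum_congr rfl fun k _ => ?_
  rw [map_smul, smul_eq_mul, mul_comm]

variable {K' : Type} [Field K'] [Algebra ℂ K'] [Algebra K K']

/-- `ext_apply` for a derivation of `K'`. -/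
theorem der_coe (htow : ∀ z : ℂ, algebraMap ℂ K' z = algebraMap K K' (algebraMap ℂ K z))
    {J : Bra K} (hA : IsAlt J) (ht : Algebra.trdeg ℂ K = 4) {x : Fin 4 → K}
    (hx : brk J x ≠ 0) (D : Derivation ℂ K' K') (f : K) :
    D (algebraMap K K' f) =
      ∑ k, algebraMap K K' (dfr J x k f) * D (algebraMap K K' (x k)) := by
  have : IsScalarTower ℂ K K' := IsScalarTower.of_algebraMap_eq htow
  have h1 := ext_apply hA ht hx (D.compAlgebraMap K) f
  have h2 : ∀ g, (D.compAlgebraMap K) g = D (algebraMap K K' g) := fun g => rfl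
  rw [h2] at h1
  rw [h1]
  refine Finset.sum_congr rfl fun k _ => ?_
  rw [h2, Algebra.smul_def]

/-- The pull-back of a 1-form. -/
noncomputable def hat (K' : Type) [Field K'] [Algebra ℂ K'] [Algebra K K'] (J : Bra K)
    (x : Fin 4 → K) (η : Helper88.D4.One K) : Helper88.D4.One K' where
  toFun := fun D => ∑ k, algebraMap K K' (η (dfr J x k)) * D (algebraMap K K' (x k))
  map_add' := fun D D' => by
    simp only [Derivation.add_apply, mul_add, Finset.sum_add_distrib]
  map_smul' := fun a D => by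
    simp only [Derivation.smul_apply, smul_eq_mul, RingHom.id_apply]
    rw [Finset.mul_sum]
    exact Finset.sum_congr rfl fun k _ => by ring

/-- The extended form does not depend on the frame. -/
theorem frame_indep (htow : ∀ z : ℂ, algebraMap ℂ K' z = algebraMap K K' (algebraMap ℂ K z))
    {J : Bra K} (hA : IsAlt J) (ht : Algebra.trdeg ℂ K = 4)
    {x y : Fin 4 → K} (hx : brk J x ≠ 0) (hy : brk J y ≠ 0) (η : Helper88.D4.One K)
    (D : Derivation ℂ K' K') :
    ∑ k, algebraMap K K' (η (dfr J x k)) * D (algebraMap K K' (x k)) =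
      ∑ k, algebraMap K K' (η (dfr J y k)) * D (algebraMap K K' (y k)) := by
  have h1 : ∀ k, algebraMap K K' (η (dfr J x k)) * D (algebraMap K K' (x k)) =
      ∑ l, algebraMap K K' (η (dfr J x k) * dfr J y l (x k)) *
        D (algebraMap K K' (y l)) := by
    intro k
    rw [der_coe htow hA ht hy D (x k), Finset.mul_sum]
    refine Finset.sum_congr rfl fun l _ => ?_
    rw [map_mul]
    ring
  rw [Finset.sum_congr rfl fun k _ => h1 k, Finset.sum_comm]
  refine Finset.sum_congr rfl fun l _ => ?_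
  rw [← Finset.sum_mul, ← map_sum, ← one_apply hA ht hx η (dfr J y l)]

theorem isHat_hat (htow : ∀ z : ℂ, algebraMap ℂ K' z = algebraMap K K' (algebraMap ℂ K z))
    {J : Bra K} (hA : IsAlt J) (ht : Algebra.trdeg ℂ K = 4)
    {x : Fin 4 → K} (hx : brk J x ≠ 0) (η : Helper88.D4.One K) : IsHat J η (hat K' J x η) :=
  fun _ hz D => frame_indep htow hA ht hx hz η D

/-- The value at an extension of a derivation of `K`. -/
theorem isHat_exd {J : Bra K} (hA : IsAlt J) (ht : Algebra.trdeg ℂ K = 4)
    {x : Fin 4 → K} (hx : brk J x ≠ 0) {η : Helper88.D4.One K} {η' : Helper88.D4.One K'}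
    (hη : IsHat J η η') {D : Derivation ℂ K K} {D' : Derivation ℂ K' K'} (hD : Exd D D') :
    η' D' = algebraMap K K' (η D) := by
  rw [hη x hx, one_apply hA ht hx η D, map_sum]
  refine Finset.sum_congr rfl fun k _ => ?_
  rw [hD, map_mul]

/-- The invariance of the extended form. -/
theorem isHat_inv (htow : ∀ z : ℂ, algebraMap ℂ K' z = algebraMap K K' (algebraMap ℂ K z))
    {J : Bra K} (hA : IsAlt J) (ht : Algebra.trdeg ℂ K = 4)
    {x : Fin 4 → K} (hx : brk J x ≠ 0) {η : Helper88.D4.One K} {η' : Helper88.D4.One K'}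
    (hη : IsHat J η η') {H : Derivation ℂ K K} {H' : Derivation ℂ K' K'} (hH : Exd H H')
    (hinv : ∀ D, H (η D) = η ⁅H, D⁆) (D : Derivation ℂ K' K') :
    H' (η' D) = η' ⁅H', D⁆ := by
  rw [hη x hx, hη x hx]
  have hE : ∀ l, H (η (dfr J x l)) = -∑ k, η (dfr J x k) * dfr J x l (H (x k)) := by
    intro l
    rw [hinv, one_apply hA ht hx η ⁅H, dfr J x l⁆, ← Finset.sum_neg_distrib]
    refine Finset.sum_congr rfl fun k _ => ?_
    rw [Derivation.commutator_apply, dfr_apply hA hx]
    have h4 : H (if l = k then (1 : K) else 0) = 0 := by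
      split_ifs
      · exact H.map_one_eq_zero
      · exact map_zero H
    rw [h4]
    ring
  have h5 : H' (∑ k, algebraMap K K' (η (dfr J x k)) * D (algebraMap K K' (x k))) =
      ∑ k, algebraMap K K' (η (dfr J x k)) * H' (D (algebraMap K K' (x k))) +
      ∑ k, algebraMap K K' (H (η (dfr J x k))) * D (algebraMap K K' (x k)) := by
    rw [map_sum, ← Finset.sum_add_distrib]
    refine Finset.sum_congr rfl fun k _ => ?_
    rw [Derivation.leibniz, hH, smul_eq_mul, smul_eq_mul]
    ring
  have h6 : ∑ k, algebraMap K K' (η (dfr J x k)) *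
      ⁅H', D⁆ (algebraMap K K' (x k)) =
      ∑ k, algebraMap K K' (η (dfr J x k)) * H' (D (algebraMap K K' (x k))) -
      ∑ k, algebraMap K K' (η (dfr J x k)) * D (algebraMap K K' (H (x k))) := by
    rw [← Finset.sum_sub_distrib]
    refine Finset.sum_congr rfl fun k _ => ?_
    rw [Derivation.commutator_apply, hH]
    ring
  have h7 : ∑ k, algebraMap K K' (η (dfr J x k)) * D (algebraMap K K' (H (x k))) =
      ∑ l, (∑ k, algebraMap K K' (η (dfr J x k) * dfr J x l (H (x k)))) *
        D (algebraMap K K' (x l)) := by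
    have h8 : ∀ k, algebraMap K K' (η (dfr J x k)) * D (algebraMap K K' (H (x k))) =
        ∑ l, algebraMap K K' (η (dfr J x k) * dfr J x l (H (x k))) *
          D (algebraMap K K' (x l)) := by
      intro k
      rw [der_coe htow hA ht hx D (H (x k)), Finset.mul_sum]
      refine Finset.sum_congr rfl fun l _ => ?_
      rw [map_mul]
      ring
    rw [Finset.sum_congr rfl fun k _ => h8 k, Finset.sum_comm]
    refine Finset.sum_congr rfl fun l _ => ?_
    rw [Finset.sum_mul]
  rw [h5, h6, h7, sub_eq_add_neg, ← Finset.sum_neg_distrib]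
  congr 1
  refine Finset.sum_congr rfl fun l _ => ?_
  rw [hE l, map_neg, map_sum]
  ring

theorem exists_frame {J : Bra K} (hA : IsAlt J) : ∃ x : Fin 4 → K, brk J x ≠ 0 := by
  obtain ⟨x, y, z, w, h⟩ := hA.ne
  exact ⟨![x, y, z, w], h⟩

theorem s_HAT : S_HAT := by
  intro K K' _ _ _ _ _ htow J ht hA η
  obtain ⟨x, hx⟩ := exists_frame hA
  have h := isHat_hat (K' := K') htow hA ht hx η
  exact ⟨hat K' J x η, h, fun D D' hD => isHat_exd hA ht hx h hD,
    fun Z Z' hZ hinv D' => isHat_inv htow hA ht hx h hZ hinv D'⟩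

end Pool.Agent.Helper85.D4
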