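import Pool.Agent.Helper85.D4.Mr

/-!
# D4: logarithmic derivations at a discrete valuation (S_TAME)
-/

set_option autoImplicit false

namespace Pool.Agent.Helper85.D4

open Module Pool.Agent.Helper37.SD Pool.Agent.Helper88.D4

variable {K : Type} [Field K] [Algebra ℂ K]

/-- logarithmic derivative of a product -/
theorem ld_mul (D : Derivation ℂ K K) {x y : K} (hx : x ≠ 0) (hy : y ≠ 0) :
    D (x * y) / (x * y) = D x / x + D y / y := by
  rw [Derivation.leibniz, smul_eq_mul, smul_eq_mul]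
  field_simp
  ring

/-- logarithmic derivative of a power -/
theorem ld_zpow (D : Derivation ℂ K K) {x : K} (hx : x ≠ 0) (n : ℤ) :
    D (x ^ n) / x ^ n = (n : K) * (D x / x) := by
  rw [Derivation.leibniz_zpow, zpow_sub_one₀ hx, zsmul_eq_mul, smul_eq_mul]
  have h := zpow_ne_zero n hx
  field_simp

theorem val_zpow (u : RVal K) {x : K} (hx : x ≠ 0) (n : ℤ) : u.val (x ^ n) = n * u.val x := by
  cases n with
  | ofNat n =>
    rw [Int.ofNat_eq_natCast, zpow_natCast, u.val_pow hx]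
    push_cast
    ring
  | negSucc n =>
    rw [zpow_negSucc, u.val_inv (pow_ne_zero _ hx), u.val_pow hx, Int.negSucc_eq]
    push_cast
    ring

theorem ge_int (u : RVal K) (n : ℤ) : u.Ge 0 ((n : ℤ) : K) := by
  by_cases h : (n : ℂ) = 0
  · have h1 : n = 0 := by exact_mod_cast h
    subst h1
    exact Or.inl (by push_cast; rfl)
  · refine Or.inr ?_
    have h1 : ((n : ℤ) : K) = algebraMap ℂ K (n : ℂ) := by rw [map_intCast]
    rw [h1, u.map_const _ h]

/-- The pole order of a derivation at a valuation essentially of finite type is bounded. -/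
theorem exists_bdd (u : RVal K) (hu : DVal u) (D : Derivation ℂ K K) :
    ∃ B : ℝ, ∀ x, x ≠ 0 → u.Ge B (D x / x) := by
  classical
  obtain ⟨G, hG, hloc⟩ := hu.eft
  obtain ⟨p, hp0, hp1⟩ := hu.unif
  set B : ℝ := -∑ g ∈ G, |u.val (D g)| with hB
  have hBle : B ≤ 0 := by
    rw [hB, neg_nonpos]
    exact Finset.sum_nonneg fun g _ => abs_nonneg _
  have hBg : ∀ g ∈ G, u.Ge B (D g) := by
    intro g hg
    refine Or.inr ?_
    have h1 : |u.val (D g)| ≤ ∑ g ∈ G, |u.val (D g)| :=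
      Finset.single_le_sum (f := fun g => |u.val (D g)|) (fun g _ => abs_nonneg _) hg
    have h2 := neg_abs_le (u.val (D g))
    rw [hB]
    linarith
  have hadj : ∀ t ∈ Algebra.adjoin ℂ (G : Set K), u.Ge 0 t ∧ u.Ge B (D t) := by
    intro t ht
    induction ht using Algebra.adjoin_induction with
    | mem x hx => exact ⟨hG x hx, hBg x hx⟩
    | algebraMap r =>
      refine ⟨?_, Or.inl (D.map_algebraMap r)⟩
      by_cases hr : r = 0
      · exact Or.inl (by rw [hr, map_zero])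
      · exact Or.inr (by rw [u.map_const r hr])
    | add x y _ _ hx hy =>
      rw [map_add]
      exact ⟨u.ge_add hx.1 hy.1, u.ge_add hx.2 hy.2⟩
    | mul x y _ _ hx hy =>
      refine ⟨?_, ?_⟩
      · have h := u.ge_mul hx.1 hy.1
        rwa [add_zero] at h
      · rw [Derivation.leibniz, smul_eq_mul, smul_eq_mul]
        have h1 := u.ge_mul hx.1 hy.2
        have h2 := u.ge_mul hy.1 hx.2
        rw [zero_add] at h1 h2
        exact u.ge_add h1 h2
  have hpos : ∀ x, x ≠ 0 → 0 ≤ u.val x → u.Ge B (D x) := by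
    intro x hx hux
    obtain ⟨s, hs, hs0, hus, hsx⟩ := hloc x hx hux
    have h1 := (hadj _ hsx).2
    have h2 := (hadj _ hs).2
    have h3 : D x = (D (s * x) - x * D s) / s := by
      rw [Derivation.leibniz, smul_eq_mul, smul_eq_mul]
      field_simp
      ring
    rw [h3]
    have h4 : u.Ge B (x * D s) := by
      have h5 := u.ge_mul (Or.inr hux : u.Ge 0 x) h2
      rwa [zero_add] at h5
    have h6 := u.ge_div (u.ge_sub h1 h4) hs0
    rwa [hus, sub_zero] at h6
  refine ⟨B - 1, ?_⟩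
  intro x hx
  obtain ⟨n, hn⟩ := hu.int x hx
  have hpn : p ^ n ≠ 0 := zpow_ne_zero n hp0
  have hw0 : x / p ^ n ≠ 0 := div_ne_zero hx hpn
  have hxw : x = x / p ^ n * p ^ n := by field_simp
  have huw : u.val (x / p ^ n) = 0 := by
    rw [u.val_div hx hpn, val_zpow u hp0, hp1, hn]
    ring
  have h1 : D x / x = D (x / p ^ n) / (x / p ^ n) + (n : K) * (D p / p) := by
    conv_lhs => rw [hxw]
    rw [ld_mul D hw0 hpn, ld_zpow D hp0]
  rw [h1]
  refine u.ge_add ?_ ?_
  · have h2 := u.ge_div (hpos _ hw0 huw.ge) hw0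
    rw [huw, sub_zero] at h2
    exact u.ge_mono (by linarith) h2
  · have h2 := u.ge_div (hpos p hp0 (by rw [hp1]; norm_num)) hp0
    rw [hp1] at h2
    have h3 := u.ge_mul (ge_int u n) h2
    rwa [zero_add] at h3

theorem aeval_rename_succ {n : ℕ} (x : Fin (n + 1) → K) (Q : MvPolynomial (Fin n) ℂ) :
    MvPolynomial.aeval x (MvPolynomial.rename Fin.succ Q) =
      MvPolynomial.aeval (fun i => x i.succ) Q := by
  rw [MvPolynomial.aeval_rename]
  rfl

/-- A polynomial with `∂P/∂X₀ = 0` does not contain `X₀`. -/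
theorem exists_rename_of_pderiv {n : ℕ} (P : MvPolynomial (Fin (n + 1)) ℂ)
    (h : MvPolynomial.pderiv 0 P = 0) : ∃ Q, MvPolynomial.rename Fin.succ Q = P := by
  classical
  refine MvPolynomial.exists_rename_eq_of_vars_subset_range P Fin.succ (Fin.succ_injective n) ?_
  intro i hi
  rw [Finset.mem_coe, MvPolynomial.mem_vars_iff_mem_support] at hi
  obtain ⟨m, hm, him⟩ := hi
  rcases Fin.eq_zero_or_eq_succ i with h0 | ⟨j, hj⟩
  · exfalso
    subst h0
    have hm0 : m 0 ≠ 0 := Finsupp.mem_support_iff.mp him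
    have h2 : MvPolynomial.coeff (m - Finsupp.single 0 1) (MvPolynomial.pderiv 0 P) = 0 := by
      rw [h, MvPolynomial.coeff_zero]
    rw [MvPolynomial.coeff_pderiv] at h2
    have h3 : m - Finsupp.single 0 1 + Finsupp.single 0 1 = m := by
      ext j
      simp only [Finsupp.add_apply, Finsupp.tsub_apply, Finsupp.single_apply]
      split_ifs with h4
      · subst h4
        omega
      · simp
    rw [h3] at h2
    rcases mul_eq_zero.mp h2 with h4 | h4
    · exact (MvPolynomial.mem_support_iff.mp hm) h4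
    · exact Nat.cast_add_one_ne_zero _ h4
  · exact ⟨j, hj.symm⟩

/-- Tame extension for integral valuations with a bounded derivation. -/
theorem tame_core (htr : Algebra.trdeg ℂ K = 4) (u : RVal K)
    (hint : ∀ x, x ≠ 0 → ∃ n : ℤ, u.val x = n) {p : K} (hp0 : p ≠ 0) (hp1 : u.val p = 1)
    {y : Fin 3 → K} (hy : RInd u y) {g : K} (hg0 : g ≠ 0) (hg : 0 < u.val g)
    {D : Derivation ℂ K K} {B : ℝ} (hB : ∀ x, x ≠ 0 → u.Ge B (D x / x))
    (hDg : u.Ge (u.val g) (D g)) (hDy : ∀ i, u.Ge 0 (D (y i))) : LogDer u D := by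
  classical
  by_contra hcon
  unfold LogDer at hcon
  push Not at hcon
  obtain ⟨x₀, hx₀, hx₀'⟩ := hcon
  -- the least value of `u (D x) - u x`
  have hex : ∃ k : ℤ, ∃ x, x ≠ 0 ∧ D x ≠ 0 ∧ u.val (D x) - u.val x = k := by
    have h1 : D x₀ ≠ 0 := fun h => hx₀' (Or.inl h)
    obtain ⟨a, ha⟩ := hint _ h1
    obtain ⟨b, hb⟩ := hint _ hx₀
    exact ⟨a - b, x₀, hx₀, h1, by rw [ha, hb]; push_cast; rfl⟩
  have hlow : ∃ b : ℤ, ∀ k : ℤ, (∃ x, x ≠ 0 ∧ D x ≠ 0 ∧ u.val (D x) - u.val x = k) → b ≤ k := by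
    refine ⟨⌊B⌋, ?_⟩
    rintro k ⟨x, hx, hDx, hk⟩
    have h1 := (hB x hx).resolve_left (div_ne_zero hDx hx)
    rw [u.val_div hDx hx, hk] at h1
    have h2 := Int.floor_le B
    exact_mod_cast h2.trans h1
  obtain ⟨k, ⟨x, hx, hDx, hk⟩, hmin⟩ := Int.exists_least_of_bdd hlow hex
  have hall : ∀ w, w ≠ 0 → u.Ge (u.val w + k) (D w) := by
    intro w hw
    by_cases h : D w = 0
    · exact Or.inl h
    · refine Or.inr ?_
      obtain ⟨a, ha⟩ := hint _ h
      obtain ⟨b, hb⟩ := hint _ hw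
      have h1 := hmin (a - b) ⟨w, hw, h, by rw [ha, hb]; push_cast; rfl⟩
      rw [ha, hb]
      have h2 : (k : ℝ) ≤ (a : ℝ) - b := by exact_mod_cast h1
      linarith
  have hkneg : k ≤ -1 := by
    have h1 : D x₀ ≠ 0 := fun h => hx₀' (Or.inl h)
    have h2 : ¬ (u.val x₀ ≤ u.val (D x₀)) := fun h => hx₀' (Or.inr h)
    have h3 := (hall x₀ hx₀).resolve_left h1
    have h4 : (k : ℝ) < 0 := by
      push Not at h2
      linarith
    have h5 : k < 0 := by exact_mod_cast h4
    omega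
  have hkneg' : (k : ℝ) ≤ -1 := by exact_mod_cast hkneg
  -- the unit `z`
  obtain ⟨e, he⟩ := hint _ hg0
  obtain ⟨n, hn⟩ := hint _ hx
  have he0 : e ≠ 0 := by
    intro h
    rw [he, h, Int.cast_zero] at hg
    exact lt_irrefl _ hg
  set z : K := x ^ e * g ^ (-n) with hz
  have hxe : x ^ e ≠ 0 := zpow_ne_zero e hx
  have hgn : g ^ (-n) ≠ 0 := zpow_ne_zero (-n) hg0
  have hz0 : z ≠ 0 := mul_ne_zero hxe hgn
  have huz : u.val z = 0 := by
    rw [hz, u.map_mul _ _ hxe hgn, val_zpow u hx, val_zpow u hg0, hn, he]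
    push_cast
    ring
  have hldz : D z / z = (e : K) * (D x / x) + ((-n : ℤ) : K) * (D g / g) := by
    rw [hz, ld_mul D hxe hgn, ld_zpow D hx, ld_zpow D hg0]
  have hDz : D z ≠ 0 ∧ u.val (D z) = k := by
    have hec : (e : ℂ) ≠ 0 := by exact_mod_cast he0
    have heK : ((e : ℤ) : K) = algebraMap ℂ K (e : ℂ) := by rw [map_intCast]
    have heK0 : ((e : ℤ) : K) ≠ 0 := by
      rw [heK]
      exact (map_ne_zero _).mpr hec
    have h1 : (e : K) * (D x / x) ≠ 0 := mul_ne_zero heK0 (div_ne_zero hDx hx)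
    have h2 : u.val ((e : K) * (D x / x)) = k := by
      rw [u.map_mul _ _ heK0 (div_ne_zero hDx hx), heK, u.map_const _ hec, u.val_div hDx hx, hk,
        zero_add]
    have h3 : u.Ge 0 (((-n : ℤ) : K) * (D g / g)) := by
      have h4 := u.ge_div hDg hg0
      rw [sub_self] at h4
      have h5 := u.ge_mul (ge_int u (-n)) h4
      rwa [zero_add] at h5
    have h4 : u.Gt (u.val ((e : K) * (D x / x))) (((-n : ℤ) : K) * (D g / g)) := by
      rw [h2]
      rcases h3 with h5 | h5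
      · exact Or.inl h5
      · exact Or.inr (by linarith)
    obtain ⟨h5, h6⟩ := u.val_add_eq h1 h4
    rw [← hldz] at h5 h6
    have h7 : D z ≠ 0 := fun h => h5 (by rw [h, zero_div])
    refine ⟨h7, ?_⟩
    rw [u.val_div h7 hz0, huz, h2] at h6
    linarith
  -- the minimal relation
  have hyval : ∀ i, y i ≠ 0 ∧ u.val (y i) = 0 := by
    intro i
    have h1 := hy (MvPolynomial.X i) (MvPolynomial.X_ne_zero i)
    rwa [MvPolynomial.aeval_X] at h1
  have hge : ∀ i : Fin 4, u.Ge 0 ((Fin.cons z y : Fin 4 → K) i) := by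
    intro i
    refine Fin.cases ?_ (fun j => ?_) i
    · exact Or.inr (by rw [Fin.cons_zero, huz])
    · exact Or.inr (by rw [Fin.cons_succ, (hyval j).2])
  obtain ⟨P, hP, h1, h2, -⟩ := mr' htr u hp0 hp1 hint (Fin.cons z y : Fin 4 → K) hge
  have hP0 : MvPolynomial.pderiv 0 P ≠ 0 := by
    intro h
    obtain ⟨Q, hQ⟩ := exists_rename_of_pderiv P h
    have hQ0 : Q ≠ 0 := by
      rintro rfl
      rw [map_zero] at hQ
      exact hP hQ.symm
    rw [← hQ, aeval_rename_succ] at h1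
    have h3 : (fun i : Fin 3 => (Fin.cons z y : Fin 4 → K) i.succ) = y := by
      funext i
      exact Fin.cons_succ (α := fun _ => K) z y i
    rw [h3] at h1
    obtain ⟨h4, h5⟩ := hy Q hQ0
    rcases h1 with h6 | h6
    · exact h4 h6
    · rw [h5] at h6
      linarith
  have hD := der_aeval D (Fin.cons z y : Fin 4 → K) P
  rw [Fin.sum_univ_succ] at hD
  have hA := (h2 0).resolve_left hP0
  have hlead : MvPolynomial.aeval (Fin.cons z y : Fin 4 → K) (MvPolynomial.pderiv 0 P) *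
      D ((Fin.cons z y : Fin 4 → K) 0) ≠ 0 ∧
      u.val (MvPolynomial.aeval (Fin.cons z y : Fin 4 → K) (MvPolynomial.pderiv 0 P) *
        D ((Fin.cons z y : Fin 4 → K) 0)) = k := by
    rw [Fin.cons_zero]
    exact ⟨mul_ne_zero hA.1 hDz.1, by rw [u.map_mul _ _ hA.1 hDz.1, hA.2, hDz.2, zero_add]⟩
  have hrest : u.Ge 0 (∑ i : Fin 3, MvPolynomial.aeval (Fin.cons z y : Fin 4 → K)
      (MvPolynomial.pderiv i.succ P) * D ((Fin.cons z y : Fin 4 → K) i.succ)) := by
    refine u.ge_sum _ _ fun i _ => ?_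
    rw [Fin.cons_succ]
    have h3 := u.ge_mul (ge_aeval u hge (MvPolynomial.pderiv i.succ P)) (hDy i)
    rwa [zero_add] at h3
  obtain ⟨h3, h4⟩ := u.val_add_eq hlead.1 (y := ∑ i : Fin 3,
    MvPolynomial.aeval (Fin.cons z y : Fin 4 → K)
      (MvPolynomial.pderiv i.succ P) * D ((Fin.cons z y : Fin 4 → K) i.succ)) (by
    rw [hlead.2]
    rcases hrest with h5 | h5
    · exact Or.inl h5
    · exact Or.inr (by linarith))
  rw [← hD, hlead.2] at h4
  rw [← hD] at h3
  have h5 : MvPolynomial.aeval (Fin.cons z y : Fin 4 → K) P ≠ 0 := by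
    intro h
    rw [h, map_zero] at h3
    exact h3 rfl
  have h6 := (hall _ h5).resolve_left h3
  have h7 := h1.resolve_left h5
  rw [h4] at h6
  linarith

theorem s_TAME : S_TAME := by
  intro K _ _ htr u hu y hy g hg0 hg D hDg hDy
  obtain ⟨B, hB⟩ := exists_bdd u hu D
  obtain ⟨p, hp0, hp1⟩ := hu.unif
  exact tame_core htr u hu.int hp0 hp1 hy hg0 hg hB hDg hDy

end Pool.Agent.Helper85.D4
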