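import Pool.Agent.Helper20.D4.Lau
import Pool.Agent.Helper85.D4.Hat
import Pool.Agent.Helper85.D4.Tame

/-!
# Project D4, S_RES, R8: the extended form is regular on the Cox algebra
-/

set_option autoImplicit false

namespace Pool.Agent.Helper85.D4

open Module Pool.Agent.Helper37.SD Pool.Agent.Helper20.TS Pool.Agent.Helper88.D4
open Pool.Agent.Helper12.D4 Pool.Agent.Helper20.D4

variable {K : Type} [Field K] [Algebra ℂ K]

theorem val_of_not_dist {w w' : RVal K} (h : ¬ Dist w w') {y : K} (hy : y ≠ 0) :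
    w.val y = w'.val y := by
  by_contra hc
  exact h ⟨y, hy, hc⟩

theorem ge_of_not_dist {w w' : RVal K} (h : ¬ Dist w w') {y : K} {c : ℝ} (hy : w'.Ge c y) :
    w.Ge c y := by
  by_cases h0 : y = 0
  · exact Or.inl h0
  · refine Or.inr ?_
    rw [val_of_not_dist h h0]
    exact hy.resolve_left h0

theorem dist_of_not_dist {w w' w'' : RVal K} (h : ¬ Dist w w') (hd : Dist w' w'') :
    Dist w w'' := by
  obtain ⟨y, hy, hne⟩ := hd
  exact ⟨y, hy, by rw [val_of_not_dist h hy]; exact hne⟩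

/-- A form which is regular at `w` on the derivations of `R` is regular at `w` on the dual frame. -/
theorem frame_ge {R : Subalgebra ℂ K} {ξ : Derivation ℂ K K} {J : Bra K} {a : ℝ}
    (hC : Cone4 R ξ J a) {w : RVal K} {x : Fin 4 → K} (hx : ∀ i, x i ∈ R) (hb : brk J x ≠ 0)
    (hbw : w.val (brk J x) = 0) (θ : Helper88.D4.One K)
    (hθ : ∀ D, Pres R D → w.Ge 0 (θ D)) (k : Fin 4) : w.Ge 0 (θ (dfr J x k)) := by
  have hbi : w.Ge 0 (brk J x)⁻¹ := by
    refine Or.inr ?_
    rw [w.val_inv hb, hbw, neg_zero]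
  have hpres : ∀ y ∈ R, ∀ z ∈ R, ∀ v ∈ R, Pres R (J y z v) :=
    fun y hy z hz v hv f hf => hC.reg f hf y hy z hz v hv
  have key : ∀ (D : Derivation ℂ K K), w.Ge 0 (θ D) → w.Ge 0 (θ ((brk J x)⁻¹ • D)) := by
    intro D hD
    rw [map_smul, smul_eq_mul]
    have := w.ge_mul hbi hD
    rwa [add_zero] at this
  have key' : ∀ (D : Derivation ℂ K K), w.Ge 0 (θ D) → w.Ge 0 (θ (-(brk J x)⁻¹ • D)) := by
    intro D hD
    rw [neg_smul, map_neg]
    exact w.ge_neg (key D hD)
  fin_cases k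
  · exact key _ (hθ _ (hpres _ (hx 1) _ (hx 2) _ (hx 3)))
  · exact key' _ (hθ _ (hpres _ (hx 0) _ (hx 2) _ (hx 3)))
  · exact key _ (hθ _ (hpres _ (hx 0) _ (hx 1) _ (hx 3)))
  · exact key' _ (hθ _ (hpres _ (hx 0) _ (hx 1) _ (hx 2)))

variable {K' : Type} [Field K'] [Algebra ℂ K'] [Algebra K K']

theorem ge_coe {w : RVal K} {w' : RVal K'}
    (h : ∀ x, x ≠ 0 → w'.val (algebraMap K K' x) = w.val x) {x : K} {c : ℝ} (hx : w.Ge c x) :
    w'.Ge c (algebraMap K K' x) := by
  by_cases h0 : x = 0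
  · exact Or.inl (by rw [h0, map_zero])
  · refine Or.inr ?_
    rw [h x h0]
    exact hx.resolve_left h0

/-- The main part of the extended form. -/
theorem hat_ge {R : Subalgebra ℂ K} {ξ : Derivation ℂ K K} {J : Bra K} {a : ℝ}
    (hC : Cone4 R ξ J a) {w : RVal K} {w' : RVal K'}
    (hw' : ∀ x, x ≠ 0 → w'.val (algebraMap K K' x) = w.val x)
    {x : Fin 4 → K} (hx : ∀ i, x i ∈ R) (hb : brk J x ≠ 0)
    (hbw : w.val (brk J x) = 0) (θ : Helper88.D4.One K)
    (hθ : ∀ D, Pres R D → w.Ge 0 (θ D)) (D' : Derivation ℂ K' K')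
    (hD' : ∀ i, w'.Ge 0 (D' (algebraMap K K' (x i)))) :
    w'.Ge 0 (∑ k, algebraMap K K' (θ (dfr J x k)) * D' (algebraMap K K' (x k))) := by
  refine w'.ge_sum _ _ fun k _ => ?_
  have h1 := w'.ge_mul (ge_coe hw' (frame_ge hC hx hb hbw θ hθ k)) (hD' k)
  rwa [add_zero] at h1

/-- A logarithmic derivative is regular where the function is a unit. -/
theorem dlg_ge {w' : RVal K'} {y : K'} (hy : w'.val y = 0) {D' : Derivation ℂ K' K'}
    (hD : w'.Ge 0 (D' y)) : w'.Ge 0 (D' y / y) := by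
  by_cases h0 : y = 0
  · exact Or.inl (by rw [h0, div_zero])
  · have h1 := w'.ge_div hD h0
    rwa [hy, sub_zero] at h1

/-- The hat of `η - e ds/s`. -/
theorem hat_split (htow : ∀ z : ℂ, algebraMap ℂ K' z = algebraMap K K' (algebraMap ℂ K z))
    {J : Bra K} (hA : IsAlt J) (ht : Algebra.trdeg ℂ K = 4) {x : Fin 4 → K}
    (hx : brk J x ≠ 0) (η : Helper88.D4.One K) (e : ℂ) (s : K) (D' : Derivation ℂ K' K') :
    ∑ k, algebraMap K K' (η (dfr J x k)) * D' (algebraMap K K' (x k)) =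
      ∑ k, algebraMap K K' ((η - e • dlg s) (dfr J x k)) * D' (algebraMap K K' (x k)) +
        e • (D' (algebraMap K K' s) / algebraMap K K' s) := by
  have h1 : D' (algebraMap K K' s) / algebraMap K K' s =
      ∑ k, algebraMap K K' (dlg s (dfr J x k)) * D' (algebraMap K K' (x k)) := by
    rw [der_coe htow hA ht hx D' s, Finset.sum_div]
    refine Finset.sum_congr rfl fun k _ => ?_
    change _ = algebraMap K K' (dfr J x k s / s) * _
    rw [map_div₀]
    ring
  rw [h1, Finset.smul_sum, ← Finset.sum_add_distrib]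
  refine Finset.sum_congr rfl fun k _ => ?_
  rw [LinearMap.sub_apply, LinearMap.smul_apply, map_sub, Algebra.smul_def, map_mul, ← htow,
    Algebra.smul_def]
  ring

theorem s_RG (hCX : S_CX) (hUN : S_UN) : S_RG := by
  intro K K' _ _ _ _ _ R ξ J a hC p t u u₀ hE hu hu₀ hdist hdist₀ s hs hs0 hus hu₀s hall η e₀ e
    hη0 hη₀ hηi η' hη' D' hD'
  classical
  obtain ⟨-, -, g, hg, hgmem⟩ := hCX K K' R p t u hE hC.frac hu hdist
  have hA := hC.alt
  have ht := hC.trdeg
  have htow := hE.tower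
  -- frames
  have hframe : ∀ w, PDiv R w → ∃ x : Fin 4 → K, (∀ i, x i ∈ R) ∧ brk J x ≠ 0 ∧
      w.val (brk J x) = 0 := by
    intro w hw
    obtain ⟨q, hq, hq0, hwq⟩ := hw.unif
    obtain ⟨x₁, hx₁, x₂, hx₂, x₃, hx₃, hJ0, hJw⟩ := hUN K R ξ J a hC w hw q hq0 hwq
    refine ⟨![q, x₁, x₂, x₃], ?_, hJ0, hJw⟩
    intro i
    fin_cases i
    · exact hq
    · exact hx₁
    · exact hx₂
    · exact hx₃
  -- the value
  have hval : (η' - e₀ • dlg (algebraMap K K' s) - ∑ i, (e i - e₀) • dlg (t i)) D' =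
      η' D' - e₀ • (D' (algebraMap K K' s) / algebraMap K K' s) -
        ∑ i, (e i - e₀) • (D' (t i) / t i) := by
    rw [LinearMap.sub_apply, LinearMap.sub_apply, LinearMap.smul_apply, LinearMap.sum_apply]
    rfl
  rw [hval]
  have hDR : ∀ y ∈ R, D' (algebraMap K K' y) ∈ Cx R u t := fun y hy => hD' _ (R_mem_Cx hu hy)
  have hDt : ∀ i, D' (t i) ∈ Cx R u t := fun i => hD' _ (t_mem_Cx hu i)
  -- it is a Laurent polynomial
  have hLa : η' D' - e₀ • (D' (algebraMap K K' s) / algebraMap K K' s) -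
      ∑ i, (e i - e₀) • (D' (t i) / t i) ∈ La hE := by
    have hle : Cx R u t ≤ La hE := Cx_le_La hE
    refine Subalgebra.sub_mem _ (Subalgebra.sub_mem _ ?_ ?_) ?_
    · obtain ⟨x, hx, hb, -⟩ := hframe u₀ hu₀
      rw [hη' x hb D']
      refine Subalgebra.sum_mem _ fun k _ => ?_
      exact Subalgebra.mul_mem _ (algebraMap_mem_La hE _) (hle (hDR _ (hx k)))
    · refine Subalgebra.smul_mem _ ?_ _
      rw [div_eq_mul_inv, ← map_inv₀]
      exact Subalgebra.mul_mem _ (hle (hDR s hs)) (algebraMap_mem_La hE _)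
    · refine Subalgebra.sum_mem _ fun i _ => Subalgebra.smul_mem _ ?_ _
      rw [div_eq_mul_inv]
      exact Subalgebra.mul_mem _ (hle (hDt i)) (t_inv_mem_La hE i)
  obtain ⟨f, hf⟩ := hLa
  rw [hf]
  refine hgmem f fun w hw => ?_
  rw [← hf]
  obtain ⟨hgc, hg0, hg1, hgCx⟩ := hg w hw
  obtain ⟨x, hx, hb, hbw⟩ := hframe w hw
  have hDx : ∀ i, (g w).Ge 0 (D' (algebraMap K K' (x i))) := fun i => hgCx _ (hDR _ (hx i))
  rw [hη' x hb D']
  have hti : ∀ i, Dist w (u i) → (g w).Ge 0 ((e i - e₀) • (D' (t i) / t i)) := by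
    intro i hd
    exact (g w).ge_smul _ (dlg_ge (hg0 i hd) (hgCx _ (hDt i)))
  rcases hall w hw with h0 | h0 | ⟨i, h0⟩
  · -- `w s = 0`
    refine (g w).ge_sub ((g w).ge_sub ?_ ?_) ?_
    · exact hat_ge hC hgc hx hb hbw η (hη0 w hw h0) D' hDx
    · refine (g w).ge_smul _ (dlg_ge ?_ (hgCx _ (hDR s hs)))
      rw [hgc s hs0, h0]
    · refine (g w).ge_sum _ _ fun i _ => hti i ⟨s, hs0, ?_⟩
      rw [h0, hus i]
      norm_num
  · -- `w = u₀`
    rw [hat_split htow hA ht hb η e₀ s D', add_sub_cancel_right]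
    refine (g w).ge_sub ?_ ?_
    · refine hat_ge hC hgc hx hb hbw _ ?_ D' hDx
      intro D hD
      exact ge_of_not_dist h0 (hη₀ D hD)
    · exact (g w).ge_sum _ _ fun i _ => hti i (dist_of_not_dist h0 (hdist₀ i))
  · -- `w = u i`
    rw [hat_split htow hA ht hb η (e i) s D', ← Finset.add_sum_erase _ _ (Finset.mem_univ i)]
    have hsplit : ∀ A S T B : K', A + e i • S - e₀ • S - ((e i - e₀) • T + B) =
        A + (e i - e₀) • (S - T) - B := by
      intro A S T B
      rw [smul_sub, sub_smul, sub_smul]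
      ring
    rw [hsplit]
    refine (g w).ge_sub ((g w).ge_add ?_ ?_) ?_
    · refine hat_ge hC hgc hx hb hbw _ ?_ D' hDx
      intro D hD
      exact ge_of_not_dist h0 (hηi i D hD)
    · -- `d log (s / t i)`
      refine (g w).ge_smul _ ?_
      have hq : algebraMap K K' s * mon t (-(Pi.single i 1 : Fin p → ℤ)) ∈ Cx R u t := by
        refine mul_mon_mem_Cx ⟨fun j => Or.inr ?_, fun w hw _ => ?_⟩
        · rw [hus j]
          by_cases hj : j = i
          · subst hj
            rw [Pi.neg_apply, Pi.single_eq_same]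
            norm_num
          · rw [Pi.neg_apply, Pi.single_eq_of_ne hj]
            norm_num
        · exact Pool.Agent.Helper76.D4.ge_of_mem hw hs
      rw [mon_neg hE.ne, mon_single] at hq
      have hs' : algebraMap K K' s ≠ 0 := (map_ne_zero _).mpr hs0
      have hq0 : algebraMap K K' s * (t i)⁻¹ ≠ 0 := mul_ne_zero hs' (inv_ne_zero (hE.ne i))
      have hqv : (g w).val (algebraMap K K' s * (t i)⁻¹) = 0 := by
        rw [(g w).map_mul _ _ hs' (inv_ne_zero (hE.ne i)), (g w).val_inv (hE.ne i), hgc s hs0,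
          hg1 i h0, val_of_not_dist h0 hs0, hus i]
        ring
      have h2 := dlg_ge hqv (hgCx _ (hD' _ hq))
      have h3 : D' (algebraMap K K' s * (t i)⁻¹) / (algebraMap K K' s * (t i)⁻¹) =
          D' (algebraMap K K' s) / algebraMap K K' s - D' (t i) / t i := by
        rw [ld_mul D' hs' (inv_ne_zero (hE.ne i)), Derivation.leibniz_inv, sub_eq_add_neg]
        congr 1
        have := hE.ne i
        rw [neg_smul, smul_eq_mul]
        field_simp
      rwa [h3] at h2
    · refine (g w).ge_sum _ _ fun j hj => ?_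
      exact hti j (dist_of_not_dist h0 (hdist i j (Finset.ne_of_mem_erase hj).symm))

end Pool.Agent.Helper85.D4
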