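import Pool.Agent.Helper88.D4.Stmts4
import Pool.Agent.Helper85.D4.Th

/-!
# Project D4, the 2-form of a bracket of two functions: closedness and homogeneity
-/

set_option autoImplicit false

namespace Pool.Agent.Helper85.D4

open Module Pool.Agent.Helper37.SD Pool.Agent.Helper88.D4 Pool.Agent.Helper12.D4

variable {K : Type} [Field K] [Algebra ℂ K] {R : Subalgebra ℂ K} {ξ : Derivation ℂ K K}
  {J : Bra K}

/-! ## homogeneous frames -/

theorem brk_update (hA : IsAlt J) (f : Fin 4 → K) (i : Fin 4) :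
    ∃ D : Derivation ℂ K K, ∀ t, brk J (Function.update f i t) = D t := by
  fin_cases i
  · exact ⟨J (f 1) (f 2) (f 3), fun t => by simp [brk]⟩
  · refine ⟨-J (f 0) (f 2) (f 3), fun t => ?_⟩
    have e : brk J (Function.update f 1 t) = J t (f 2) (f 3) (f 0) := by simp [brk]
    rw [Derivation.neg_apply, ← l1 hA (f 0) t (f 2) (f 3)]
    exact e
  · refine ⟨J (f 0) (f 1) (f 3), fun t => ?_⟩
    have e : brk J (Function.update f 2 t) = J (f 1) t (f 3) (f 0) := by simp [brk]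
    rw [← l2 hA (f 0) (f 1) t (f 3)]
    exact e
  · refine ⟨-J (f 0) (f 1) (f 2), fun t => ?_⟩
    have e : brk J (Function.update f 3 t) = J (f 1) (f 2) t (f 0) := by simp [brk]
    rw [Derivation.neg_apply, ← l3 hA (f 0) (f 1) (f 2) t]
    exact e

theorem chain_h (hA : IsAlt J) {P S : K → Prop}
    (hstep : ∀ (D : Derivation ℂ K K) (x : K), S x → ¬ P (D x) →
      ∃ b x', IsH R ξ b x' ∧ ¬ P (D x'))
    (f : Fin 4 → K) (hf : ∀ i, S (f i)) (h0 : ¬ P (brk J f)) :
    ∃ (z : Fin 4 → K) (b : Fin 4 → ℝ), (∀ i, IsH R ξ (b i) (z i)) ∧ ¬ P (brk J z) := by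
  have key : ∀ n : ℕ, n ≤ 4 → ∃ z : Fin 4 → K,
      (∀ i : Fin 4, (i : ℕ) < n → ∃ b, IsH R ξ b (z i)) ∧
      (∀ i : Fin 4, n ≤ (i : ℕ) → S (z i)) ∧ ¬ P (brk J z) := by
    intro n
    induction n with
    | zero => exact fun _ => ⟨f, fun i hi => absurd hi (Nat.not_lt_zero _), fun i _ => hf i, h0⟩
    | succ n ih =>
      intro hn
      obtain ⟨z, h1, h2, h3⟩ := ih (by omega)
      obtain ⟨D, hD⟩ := brk_update hA z ⟨n, hn⟩
      have h4 : ¬ P (D (z ⟨n, hn⟩)) := by
        rw [← hD, Function.update_eq_self]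
        exact h3
      obtain ⟨b, x, hx, hx'⟩ := hstep D _ (h2 ⟨n, hn⟩ le_rfl) h4
      refine ⟨Function.update z ⟨n, hn⟩ x, ?_, ?_, ?_⟩
      · intro i hi
        by_cases hin : i = ⟨n, hn⟩
        · subst hin
          exact ⟨b, by rw [Function.update_self]; exact hx⟩
        · rw [Function.update_of_ne hin]
          have : (i : ℕ) ≠ n := fun h => hin (Fin.ext h)
          exact h1 i (by omega)
      · intro i hi
        have hin : i ≠ ⟨n, hn⟩ := by
          rintro rfl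
          simp at hi
        rw [Function.update_of_ne hin]
        exact h2 i (by omega)
      · rw [hD]
        exact hx'
  obtain ⟨z, h1, -, h3⟩ := key 4 le_rfl
  choose b hb using fun i => h1 i i.2
  exact ⟨z, b, hb, h3⟩

theorem step_R (hC : IsCone R ξ) {P : K → Prop} (hP0 : P 0)
    (hPa : ∀ x y, P x → P y → P (x + y)) (hPs : ∀ (c : ℂ) x, P x → P (c • x))
    (D : Derivation ℂ K K) (x : K) (hx : x ∈ R) (h : ¬ P (D x)) :
    ∃ b x', IsH R ξ b x' ∧ ¬ P (D x') := by
  by_contra hcon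
  push Not at hcon
  apply h
  have h2 := hC.span x hx
  clear hx h
  induction h2 using Submodule.span_induction with
  | mem y hy =>
    obtain ⟨hyR, c, -, hc⟩ := hy
    exact hcon c y ⟨hyR, hc⟩
  | zero =>
    rw [map_zero]
    exact hP0
  | add y z _ _ hy hz =>
    rw [map_add]
    exact hPa _ _ hy hz
  | smul c y _ hy =>
    rw [Derivation.map_smul]
    exact hPs c _ hy

/-- A derivation which is not zero is not zero at some homogeneous element of `R`. -/
theorem ex_h (hC : IsCone R ξ) (D : Derivation ℂ K K) (hD : D ≠ 0) :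
    ∃ b x, IsH R ξ b x ∧ D x ≠ 0 := by
  by_contra hcon
  push Not at hcon
  apply hD
  have h1 : ∀ x ∈ R, D x = 0 := by
    intro x hx
    by_contra h0
    obtain ⟨b, x', h3, h4⟩ := step_R hC (P := fun t => t = 0) rfl
      (fun x y hx hy => by rw [hx, hy, add_zero]) (fun c x hx => by rw [hx, smul_zero]) D x hx h0
    exact h4 (hcon b x' h3)
  ext x
  obtain ⟨a, ha, b, hb, hb0, hx⟩ := hC.frac x
  have h3 : a = b * x := by rw [hx]; field_simp
  have h4 : D a = b * D x + x * D b := by rw [h3, Derivation.leibniz]; simp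
  rw [h1 a ha, h1 b hb, mul_zero, add_zero] at h4
  exact (mul_eq_zero.mp h4.symm).resolve_left hb0

/-- There are homogeneous frames. -/
theorem ex_hframe (hC : IsCone R ξ) (hA : IsAlt J) :
    ∃ (z : Fin 4 → K) (b : Fin 4 → ℝ), (∀ i, IsH R ξ (b i) (z i)) ∧ brk J z ≠ 0 := by
  obtain ⟨x, y, z, w, hne⟩ := hA.ne
  refine chain_h hA (P := fun t => t = 0) (S := fun _ => True) (fun D x _ hx => ?_)
    ![x, y, z, w] (fun _ => trivial) hne
  have hD : D ≠ 0 := by
    rintro rfl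
    exact hx rfl
  exact ex_h hC D hD

/-- There are homogeneous frames at a prime divisor. -/
theorem ex_hframe_u {a : ℝ} (hC : Cone4 R ξ J a) (u : RVal K) (hu : PDiv R u) :
    ∃ (z : Fin 4 → K) (b : Fin 4 → ℝ), (∀ i, IsH R ξ (b i) (z i)) ∧ brk J z ≠ 0 ∧
      u.val (brk J z) = 0 := by
  obtain ⟨x, hx, y, hy, z, hz, w, hw, h0, h1⟩ := hC.gen u hu
  obtain ⟨f, b, hf, hn⟩ := chain_h (J := J) hC.alt (P := fun t => u.Ge 1 t) (S := fun t => t ∈ R)
    (fun D x hx hD => step_R hC.toIsCone (Or.inl rfl) (fun _ _ => u.ge_add)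
      (fun c _ => u.ge_smul c) D x hx hD) ![x, y, z, w]
    (by intro i; fin_cases i <;> assumption) (by
      intro h
      rcases h with h | h
      · exact h0 h
      · have h2 : u.val (J y z w x) = 0 := h1
        have h3 : (1 : ℝ) ≤ u.val (J y z w x) := h
        linarith)
  refine ⟨f, b, hf, fun h => hn (Or.inl h), ?_⟩
  have hne : brk J f ≠ 0 := fun h => hn (Or.inl h)
  have hR : brk J f ∈ R := hC.reg _ (hf 0).1 _ (hf 1).1 _ (hf 2).1 _ (hf 3).1
  have h2 := hu.nonneg _ hR hne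
  obtain ⟨n, hn'⟩ := hu.int _ hne
  have h3 : ¬ (1 : ℝ) ≤ u.val (brk J f) := fun h => hn (Or.inr h)
  rw [hn'] at h2 h3 ⊢
  have h4 : 0 ≤ n := by exact_mod_cast h2
  have h5 : ¬ (1 : ℤ) ≤ n := fun h => h3 (by exact_mod_cast h)
  have h6 : n = 0 := by omega
  rw [h6, Int.cast_zero]

/-- Linear maps on the derivations which agree on the fields of homogeneous functions are equal. -/
theorem ext_h {a : ℝ} (hC : Cone4 R ξ J a) {α β : Derivation ℂ K K →ₗ[K] K}
    (h : ∀ (b c d : ℝ) (x y z : K), IsH R ξ b x → IsH R ξ c y → IsH R ξ d z →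
      α (J x y z) = β (J x y z)) : α = β := by
  obtain ⟨z, b, hz, hb⟩ := ex_hframe hC.toIsCone hC.alt
  have hd : ∀ i, α (dfr J z i) = β (dfr J z i) := by
    intro i
    have h0 := h _ _ _ _ _ _ (hz 1) (hz 2) (hz 3)
    have h1 := h _ _ _ _ _ _ (hz 0) (hz 2) (hz 3)
    have h2 := h _ _ _ _ _ _ (hz 0) (hz 1) (hz 3)
    have h3 := h _ _ _ _ _ _ (hz 0) (hz 1) (hz 2)
    fin_cases i
    · change α ((brk J z)⁻¹ • J (z 1) (z 2) (z 3)) = β ((brk J z)⁻¹ • J (z 1) (z 2) (z 3))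
      rw [map_smul, map_smul, h0]
    · change α (-(brk J z)⁻¹ • J (z 0) (z 2) (z 3)) = β (-(brk J z)⁻¹ • J (z 0) (z 2) (z 3))
      rw [map_smul, map_smul, h1]
    · change α ((brk J z)⁻¹ • J (z 0) (z 1) (z 3)) = β ((brk J z)⁻¹ • J (z 0) (z 1) (z 3))
      rw [map_smul, map_smul, h2]
    · change α (-(brk J z)⁻¹ • J (z 0) (z 1) (z 2)) = β (-(brk J z)⁻¹ • J (z 0) (z 1) (z 2))
      rw [map_smul, map_smul, h3]
  ext E
  rw [dfr_sum hC.alt hC.trdeg hb E, map_sum, map_sum]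
  refine Finset.sum_congr rfl fun i _ => ?_
  rw [map_smul, map_smul, hd i]

/-! ## the 2-form -/

/-- The 2-form `ω` is given by the bracket `{y, z} = h y z`. -/
def OmF (R : Subalgebra ℂ K) (ξ : Derivation ℂ K K) (J : Bra K) (h : K → Derivation ℂ K K)
    (ω : Form K) : Prop :=
  ∀ (b c d : ℝ) (x y z : K), IsH R ξ b x → IsH R ξ c y → IsH R ξ d z →
    ∀ A : Derivation ℂ K K, ω (J x y z) A = A x * h y z + A y * h z x + A z * h x y

variable {a s : ℝ} {h : K → Derivation ℂ K K} {ω : Form K}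

theorem om_ne (hC : Cone4 R ξ J a) (hh : IsPoi R ξ J s h) (hω : OmF R ξ J h ω) : ω ≠ 0 := by
  rintro rfl
  obtain ⟨z, b, hz, hb⟩ := ex_hframe hC.toIsCone hC.alt
  have h0 : ∀ i j k, k ≠ i → k ≠ j → h (z i) (z j) = 0 := by
    intro i j k hki hkj
    have h1 := hω _ _ _ _ _ _ (hz k) (hz i) (hz j) (dfr J z k)
    rw [dfr_apply hC.alt hb, dfr_apply hC.alt hb, dfr_apply hC.alt hb, if_pos rfl, if_neg hki,
      if_neg hkj, zero_mul, zero_mul, add_zero, add_zero, one_mul] at h1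
    rw [← h1]
    rfl
  have h1 : ∀ i j, h (z i) (z j) = 0 := by
    intro i j
    obtain ⟨k, hk1, hk2⟩ : ∃ k : Fin 4, k ≠ i ∧ k ≠ j := by
      revert i j
      decide
    exact h0 i j k hk1 hk2
  have h2 : ∀ i, h (z i) = 0 := by
    intro i
    rw [dfr_sum hC.alt hC.trdeg hb (h (z i))]
    exact Finset.sum_eq_zero fun j _ => by rw [h1, zero_smul]
  obtain ⟨b', c', y, w, hy, hw, hne⟩ := hh.ne
  apply hne
  have h3 : h y = 0 := by
    rw [dfr_sum hC.alt hC.trdeg hb (h y)]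
    refine Finset.sum_eq_zero fun j _ => ?_
    rw [hh.skew _ _ _ _ hy (hz j), h2 j, Derivation.zero_apply, neg_zero, zero_smul]
  rw [h3, Derivation.zero_apply]

end Pool.Agent.Helper85.D4
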