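import Pool.Agent.Helper85.D4.NM

/-!
# Project D4 (MP_e1889a_ag): the root of large multiplicity of a homogeneous binary form
-/

set_option autoImplicit false

namespace Pool.Agent.Helper85.D4.NM

open Polynomial Pool.Agent.Helper37.SD Pool.Agent.Helper20.TS Pool.Agent.Helper88.D4

variable {K : Type} [Field K] [Algebra ℂ K] {ξ : Derivation ℂ K K}

omit [Algebra ℂ K] in
theorem mult_add_le {L : Type} [Field L] {F : L[X]} {q : ℕ} (hF : F.natDegree ≤ q) {y z : L}
    (hyz : y ≠ z) : F.rootMultiplicity y + F.rootMultiplicity z ≤ q := by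
  classical
  have h1 : Multiset.replicate (F.rootMultiplicity y) y +
      Multiset.replicate (F.rootMultiplicity z) z ≤ F.roots := by
    rw [Multiset.le_iff_count]
    intro a
    rw [Multiset.count_add, Multiset.count_replicate, Multiset.count_replicate, count_roots]
    by_cases ha : y = a
    · subst ha
      rw [if_pos rfl, if_neg (fun h => hyz h.symm), add_zero]
    · rw [if_neg ha, zero_add]
      by_cases hb : z = a
      · subst hb
        rw [if_pos rfl]
      · rw [if_neg hb]
        exact Nat.zero_le _
  have h2 := Multiset.card_le_card h1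
  rw [Multiset.card_add, Multiset.card_replicate, Multiset.card_replicate] at h2
  exact h2.trans ((card_roots' F).trans hF)

/-- a root of large multiplicity is rational -/
theorem rat_root {f : K[X]} {q : ℕ} (hq : f.natDegree ≤ q) {ρ : AlgebraicClosure K}
    (h : q < 2 * (f.map (algebraMap K (AlgebraicClosure K))).rootMultiplicity ρ) :
    ∃ r : K, algebraMap K (AlgebraicClosure K) r = ρ ∧
      f.rootMultiplicity r = (f.map (algebraMap K (AlgebraicClosure K))).rootMultiplicity ρ := by
  have hK : CharZero K := charZero_of_injective_algebraMap (algebraMap ℂ K).injective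
  set F := f.map (algebraMap K (AlgebraicClosure K)) with hF
  have hFq : F.natDegree ≤ q := by rw [hF, natDegree_map]; exact hq
  have hint : IsIntegral K ρ := Algebra.IsIntegral.isIntegral ρ
  have hroots : ∀ z ∈ ((minpoly K ρ).map (algebraMap K (AlgebraicClosure K))).roots, z = ρ := by
    intro z hz
    have h1 : aeval z (minpoly K ρ) = 0 := by
      rw [aeval_def, ← eval_map]
      exact (mem_roots'.1 hz).2
    obtain ⟨g, hg⟩ := isConjRoot_iff_exists_algEquiv.1
      ((isConjRoot_of_aeval_eq_zero hint h1).symm : IsConjRoot K z ρ)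
    have h2 : F.rootMultiplicity ρ = F.rootMultiplicity z := by
      have h3 := eq_rootMultiplicity_map (p := F)
        (g : AlgebraicClosure K →+* AlgebraicClosure K).injective ρ
      have h4 : F.map (g : AlgebraicClosure K →+* AlgebraicClosure K) = F := by
        have h5 : (g : AlgebraicClosure K →+* AlgebraicClosure K).comp
            (algebraMap K (AlgebraicClosure K)) = algebraMap K (AlgebraicClosure K) := by
          ext x
          exact g.commutes x
        rw [hF, Polynomial.map_map, h5]
      rw [h4] at h3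
      rw [h3]
      exact congrArg (fun w => F.rootMultiplicity w) hg
    by_contra hcon
    have h6 := mult_add_le hFq hcon
    omega
  have hs : ((minpoly K ρ).map (algebraMap K (AlgebraicClosure K))).Splits := IsAlgClosed.splits _
  have hnd : ((minpoly K ρ).map (algebraMap K (AlgebraicClosure K))).roots.Nodup :=
    nodup_roots ((minpoly.irreducible hint).separable.map)
  have hc : Multiset.card ((minpoly K ρ).map (algebraMap K (AlgebraicClosure K))).roots ≤ 1 := by
    classical
    have h7 : ((minpoly K ρ).map (algebraMap K (AlgebraicClosure K))).roots ≤ {ρ} :=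
      (Multiset.le_iff_subset hnd).2 fun z hz => Multiset.mem_singleton.2 (hroots z hz)
    have h8 := Multiset.card_le_card h7
    rwa [Multiset.card_singleton] at h8
  have hdeg : (minpoly K ρ).natDegree = 1 := by
    have h9 := hs.natDegree_eq_card_roots
    rw [natDegree_map] at h9
    have h10 := minpoly.natDegree_pos hint
    omega
  obtain ⟨r, hr⟩ := minpoly.natDegree_eq_one_iff.1 hdeg
  refine ⟨r, hr, ?_⟩
  rw [hF, ← hr]
  exact eq_rootMultiplicity_map (algebraMap K (AlgebraicClosure K)).injective r

/-- a rational root is constant -/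
theorem root_const {f : K[X]} (hf : f ≠ 0) {M : ℝ}
    (hM : ∀ i, ξ (f.coeff i) = (M : ℂ) • f.coeff i) {r : K} (hr : f.eval r = 0) : ξ r = 0 :=
  const_of_alg ξ (root_alg hf hM (z := r) (by rw [coe_aeval_eq_eval]; exact hr))

/-- division by a constant root -/
theorem eig_div_one {r : K} (hr : ξ r = 0) {M : ℝ} {g : K[X]}
    (h : ∀ i, ξ (((X - C r) * g).coeff i) = (M : ℂ) • ((X - C r) * g).coeff i) (k : ℕ) :
    ξ (g.coeff k) = (M : ℂ) • g.coeff k := by
  have h1 : ∀ n k, g.natDegree + 1 ≤ k + n → ξ (g.coeff k) = (M : ℂ) • g.coeff k := by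
    intro n
    induction n with
    | zero =>
      intro k hk
      rw [coeff_eq_zero_of_natDegree_lt (by omega), map_zero, smul_zero]
    | succ n ih =>
      intro k hk
      have h2 := ih (k + 1) (by omega)
      have h3 := h (k + 1)
      have h4 : ((X - C r) * g).coeff (k + 1) = g.coeff k - r * g.coeff (k + 1) := by
        rw [sub_mul, coeff_sub, coeff_X_mul, coeff_C_mul]
      rw [h4, map_sub, Derivation.leibniz, h2, hr, smul_zero, add_zero, smul_sub, smul_eq_mul,
        mul_smul_comm] at h3
      exact sub_left_injective h3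
  exact h1 (g.natDegree + 1) k (by omega)

theorem eig_div {r : K} (hr : ξ r = 0) {M : ℝ} (i : ℕ) {g : K[X]}
    (h : ∀ k, ξ (((X - C r) ^ i * g).coeff k) = (M : ℂ) • ((X - C r) ^ i * g).coeff k) :
    ∀ k, ξ (g.coeff k) = (M : ℂ) • g.coeff k := by
  induction i with
  | zero =>
    rw [pow_zero, one_mul] at h
    exact h
  | succ i ih =>
    refine ih fun k => eig_div_one hr (g := (X - C r) ^ i * g) ?_ k
    intro k
    rw [← mul_assoc, ← pow_succ']
    exact h k

/-- all together: the root of large multiplicity and the cofactor -/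
theorem big_root {f : K[X]} {q : ℕ} (hq : f.natDegree = q) (hf : f ≠ 0) {M : ℝ}
    (hM : ∀ i, ξ (f.coeff i) = (M : ℂ) • f.coeff i) {ρ : AlgebraicClosure K}
    (h : q < 2 * (f.map (algebraMap K (AlgebraicClosure K))).rootMultiplicity ρ) :
    ∃ (r : K) (i : ℕ) (g : K[X]), algebraMap K (AlgebraicClosure K) r = ρ ∧ ξ r = 0 ∧ i ≤ q ∧
      q < 2 * i ∧ f = (X - C r) ^ i * g ∧ g.natDegree = q - i ∧ g.eval r ≠ 0 ∧
      ∀ k, ξ (g.coeff k) = (M : ℂ) • g.coeff k := by
  obtain ⟨r, hr, hrm⟩ := rat_root hq.le h
  rw [← hrm] at h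
  have h0 : f.eval r = 0 := by
    have h1 : 0 < f.rootMultiplicity r := by omega
    exact (rootMultiplicity_pos hf).1 h1
  obtain ⟨g, hg, hg'⟩ := exists_eq_pow_rootMultiplicity_mul_and_not_dvd f hf r
  have hξ : ξ r = 0 := root_const hf hM h0
  have hg0 : g ≠ 0 := by
    rintro rfl
    exact hg' (dvd_zero _)
  have hdeg : f.natDegree = f.rootMultiplicity r + g.natDegree := by
    conv_lhs => rw [hg]
    rw [natDegree_mul (pow_ne_zero _ (X_sub_C_ne_zero r)) hg0, natDegree_pow, natDegree_X_sub_C,
      mul_one]
  refine ⟨r, f.rootMultiplicity r, g, hr, hξ, by omega, h, hg, by omega, ?_, ?_⟩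
  · intro h2
    exact hg' (dvd_iff_isRoot.2 h2)
  · exact eig_div hξ (f.rootMultiplicity r) (by rw [← hg]; exact hM)

end Pool.Agent.Helper85.D4.NM
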