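import Pool.Agent.Helper88.D4.Stmts6
import Pool.Agent.Helper94.D4.Wts
import Pool.Agent.Helper11.D4.EX1

/-!
# Project D4 (MP_e1889a_ag): regular binary forms without a root of large multiplicity
-/

set_option autoImplicit false

namespace Pool.Agent.Helper85.D4.NM

open Polynomial Pool.Agent.Helper37.SD Pool.Agent.Helper20.TS Pool.Agent.Helper88.D4

variable {K : Type} [Field K] [Algebra ℂ K]

/-! ## valuations -/

theorem val_one (u : RVal K) : u.val 1 = 0 := by
  have h := u.map_const 1 one_ne_zero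
  rwa [map_one] at h

theorem val_inv (u : RVal K) {x : K} (hx : x ≠ 0) : u.val x⁻¹ = -u.val x := by
  have h := u.map_mul x x⁻¹ hx (inv_ne_zero hx)
  rw [mul_inv_cancel₀ hx, val_one] at h
  linarith

theorem ge_mul (u : RVal K) {x y : K} {a b : ℝ} (hx : u.Ge a x) (hy : u.Ge b y) :
    u.Ge (a + b) (x * y) := by
  rcases hx with rfl | hx
  · exact Or.inl (zero_mul _)
  rcases hy with rfl | hy
  · exact Or.inl (mul_zero _)
  by_cases hx0 : x = 0
  · exact Or.inl (by rw [hx0, zero_mul])
  by_cases hy0 : y = 0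
  · exact Or.inl (by rw [hy0, mul_zero])
  refine Or.inr ?_
  rw [u.map_mul x y hx0 hy0]
  linarith

theorem ge_mul0 (u : RVal K) {x y : K} (hx : u.Ge 0 x) (hy : u.Ge 0 y) : u.Ge 0 (x * y) := by
  have h := ge_mul u hx hy
  rwa [add_zero] at h

theorem ge_one (u : RVal K) : u.Ge 0 (1 : K) := Or.inr (val_one u).ge

theorem ge_neg (u : RVal K) {x : K} {a : ℝ} (hx : u.Ge a x) : u.Ge a (-x) := by
  have h := u.ge_smul (-1 : ℂ) hx
  rwa [neg_one_smul] at h

theorem val_zpow (u : RVal K) {x : K} (hx : x ≠ 0) (n : ℤ) : u.val (x ^ n) = n * u.val x := by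
  induction n with
  | zero => rw [zpow_zero, val_one, Int.cast_zero, zero_mul]
  | succ n ih =>
    rw [zpow_add_one₀ hx, u.map_mul _ _ (zpow_ne_zero _ hx) hx, ih]
    push_cast
    ring
  | pred n ih =>
    rw [zpow_sub_one₀ hx, u.map_mul _ _ (zpow_ne_zero _ hx) (inv_ne_zero hx), ih, val_inv u hx]
    push_cast
    ring

/-- the valuation ring -/
def Ou (u : RVal K) : Subring K where
  carrier := {x | u.Ge 0 x}
  mul_mem' := fun hx hy => ge_mul0 u hx hy
  one_mem' := ge_one u
  add_mem' := fun hx hy => u.ge_add hx hy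
  zero_mem' := Or.inl rfl
  neg_mem' := fun hx => ge_neg u hx

theorem mem_Ou {u : RVal K} {x : K} : x ∈ Ou u ↔ u.Ge 0 x := Iff.rfl

/-- the valuation ring of `u` is the intersection of `K` with a valuation ring of `L` -/
theorem exists_val (u : RVal K) (L : Type) [Field L] [Algebra K L] :
    ∃ V : ValuationSubring L, ∀ x : K, algebraMap K L x ∈ V ↔ u.Ge 0 x := by
  set A : Subring L := (Ou u).map (algebraMap K L) with hA
  have hinj : Function.Injective (algebraMap K L) := (algebraMap K L).injective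
  let I : Ideal A :=
    { carrier := {a | ∃ y : K, (y = 0 ∨ 0 < u.val y) ∧ algebraMap K L y = (a : L)}
      add_mem' := by
        rintro a b ⟨y, hy, hya⟩ ⟨z, hz, hzb⟩
        refine ⟨y + z, ?_, ?_⟩
        · by_cases h0 : y + z = 0
          · exact Or.inl h0
          · rcases hy with rfl | hy
            · rw [zero_add]
              exact hz
            · rcases hz with rfl | hz
              · rw [add_zero]
                exact Or.inr hy
              · by_cases hy0 : y = 0
                · rw [hy0, zero_add]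
                  exact Or.inr hz
                · by_cases hz0 : z = 0
                  · rw [hz0, add_zero]
                    exact Or.inr hy
                  · exact Or.inr ((lt_min hy hz).trans_le (u.map_add y z hy0 hz0 h0))
        · rw [map_add, hya, hzb]
          rfl
      zero_mem' := ⟨0, Or.inl rfl, by rw [map_zero]; rfl⟩
      smul_mem' := by
        rintro ⟨c, hc⟩ a ⟨y, hy, hya⟩
        obtain ⟨d, hd, rfl⟩ := hc
        refine ⟨d * y, ?_, ?_⟩
        · rcases hy with rfl | hy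
          · exact Or.inl (mul_zero _)
          · rcases (hd : u.Ge 0 d) with rfl | hd
            · exact Or.inl (zero_mul _)
            · by_cases hd0 : d = 0
              · exact Or.inl (by rw [hd0, zero_mul])
              · by_cases hy0 : y = 0
                · exact Or.inl (by rw [hy0, mul_zero])
                · refine Or.inr ?_
                  rw [u.map_mul d y hd0 hy0]
                  linarith
        · rw [map_mul, hya]
          rfl }
  have hI : I ≠ ⊤ := by
    intro h
    have h1 : (1 : A) ∈ I := by rw [h]; trivial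
    obtain ⟨y, hy, hy1⟩ := h1
    have h2 : y = 1 := hinj (by rw [hy1, map_one]; rfl)
    subst h2
    rcases hy with hy | hy
    · exact one_ne_zero hy
    · rw [val_one] at hy
      exact lt_irrefl _ hy
  obtain ⟨V, hV1, hV2⟩ := Ideal.image_subset_nonunits_valuationSubring I hI
  refine ⟨V, fun x => ⟨fun hx => ?_, fun hx => hV1 ⟨x, hx, rfl⟩⟩⟩
  by_contra hcon
  have hx0 : x ≠ 0 := fun h => hcon (Or.inl h)
  have hxu : u.val x < 0 := by
    by_contra h
    exact hcon (Or.inr (not_lt.1 h))
  have h3 : 0 < u.val x⁻¹ := by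
    rw [val_inv u hx0]
    linarith
  have h4 : (algebraMap K L x)⁻¹ ∈ V.nonunits := by
    rw [← map_inv₀]
    exact hV2 ⟨⟨algebraMap K L x⁻¹, ⟨x⁻¹, Or.inr h3.le, rfl⟩⟩, ⟨x⁻¹, Or.inr h3, rfl⟩, rfl⟩
  rcases V.inv_mem_nonunits_iff.1 h4 with h5 | h5
  · exact hx0 (hinj (by rw [h5, map_zero]))
  · exact h5 hx

/-- a polynomial whose values at all constants are integral -/
theorem vdm (u : RVal K) (n : ℕ) (b : Fin n → K)
    (h : ∀ c : ℂ, u.Ge 0 (∑ k : Fin n, (c ^ (k : ℕ)) • b k)) (k : Fin n) : u.Ge 0 (b k) := by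
  set v : Fin n → ℂ := fun i => ((i : ℕ) : ℂ) with hv
  have hinj : Function.Injective v := fun i j hij => Fin.ext (Nat.cast_injective hij)
  have hdet : IsUnit (Matrix.vandermonde v).det :=
    isUnit_iff_ne_zero.2 (Matrix.det_vandermonde_ne_zero_iff.2 hinj)
  have h1 : (Matrix.vandermonde v)⁻¹ * Matrix.vandermonde v = 1 := Matrix.nonsing_inv_mul _ hdet
  have h2 : b k = ∑ i, (Matrix.vandermonde v)⁻¹ k i • ∑ l : Fin n, (v i ^ (l : ℕ)) • b l := by
    have h3 : ∀ l : Fin n, ∑ i, (Matrix.vandermonde v)⁻¹ k i * v i ^ (l : ℕ) =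
        if k = l then 1 else 0 := by
      intro l
      have h4 := congrFun (congrFun h1 k) l
      rw [Matrix.mul_apply, Matrix.one_apply] at h4
      rw [← h4]
      rfl
    simp only [Finset.smul_sum, smul_smul]
    rw [Finset.sum_comm]
    simp only [← Finset.sum_smul, h3, ite_smul, one_smul, zero_smul]
    rw [Finset.sum_ite_eq Finset.univ k b, if_pos (Finset.mem_univ _)]
  rw [h2]
  have h5 : ∀ S : Finset (Fin n), u.Ge 0 (∑ i ∈ S, (Matrix.vandermonde v)⁻¹ k i •
      ∑ l : Fin n, (v i ^ (l : ℕ)) • b l) := by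
    intro S
    induction S using Finset.induction_on with
    | empty => exact Or.inl Finset.sum_empty
    | insert i S hi ih =>
      rw [Finset.sum_insert hi]
      exact u.ge_add (u.ge_smul _ (h (v i))) ih
  exact h5 Finset.univ

/-! ## constants -/

/-- the field of constants of a derivation -/
def K0 (ξ : Derivation ℂ K K) : Subfield K where
  carrier := {x | ξ x = 0}
  mul_mem' := fun {x y} hx hy => by
    change ξ (x * y) = 0
    rw [Derivation.leibniz, (hx : ξ x = 0), (hy : ξ y = 0), smul_zero, smul_zero, add_zero]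
  one_mem' := ξ.map_one_eq_zero
  add_mem' := fun {x y} hx hy => by
    change ξ (x + y) = 0
    rw [map_add, (hx : ξ x = 0), (hy : ξ y = 0), add_zero]
  zero_mem' := map_zero ξ
  neg_mem' := fun {x} hx => by
    change ξ (-x) = 0
    rw [map_neg, (hx : ξ x = 0), neg_zero]
  inv_mem' := fun x hx => by
    change ξ x⁻¹ = 0
    rw [Derivation.leibniz_inv, (hx : ξ x = 0), smul_zero]

theorem const_of_alg (ξ : Derivation ℂ K K) {x : K} (hx : IsAlgebraic (K0 ξ) x) : ξ x = 0 := by
  let E : Derivation (K0 ξ) K K := Derivation.mk'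
    { toFun := ξ
      map_add' := map_add ξ
      map_smul' := fun c y => by
        change ξ ((c : K) * y) = (c : K) * ξ y
        rw [Derivation.leibniz, (c.2 : ξ (c : K) = 0), smul_zero, add_zero, smul_eq_mul] }
    (fun a b => ξ.leibniz a b)
  have hxi : IsIntegral (K0 ξ) x := hx.isIntegral
  have h1 := E.map_aeval (minpoly (K0 ξ) x) x
  rw [minpoly.aeval, map_zero] at h1
  have hc' : CharZero K := charZero_of_injective_algebraMap (algebraMap ℂ K).injective
  have hc : CharZero (K0 ξ) := inferInstance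
  have h2 : (minpoly (K0 ξ) x).Separable := (minpoly.irreducible hxi).separable
  have h3 : aeval x (derivative (minpoly (K0 ξ) x)) ≠ 0 :=
    h2.aeval_derivative_ne_zero (minpoly.aeval _ _)
  exact (smul_eq_zero.1 h1.symm).resolve_left h3

/-! ## factorisations -/

theorem exists_enum {α : Type} (s : Multiset α) (q : ℕ) (h : Multiset.card s = q) :
    ∃ ρ : Fin q → α, Finset.univ.val.map ρ = s := by
  obtain ⟨l, rfl⟩ : ∃ l : List α, (l : Multiset α) = s := ⟨s.toList, s.coe_toList⟩
  rw [Multiset.coe_card] at h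
  subst h
  exact ⟨l.get, by rw [Fin.univ_val_map, List.ofFn_get]⟩

omit [Algebra ℂ K] in
theorem exists_roots (f : K[X]) (q : ℕ) (hq : f.natDegree = q) :
    ∃ ρ : Fin q → AlgebraicClosure K,
      f.map (algebraMap K (AlgebraicClosure K)) =
        C (algebraMap K (AlgebraicClosure K) f.leadingCoeff) * ∏ j, (X - C (ρ j)) ∧
      ∀ z, ∀ S : Finset (Fin q), (∀ i ∈ S, ρ i = z) →
        S.card ≤ (f.map (algebraMap K (AlgebraicClosure K))).rootMultiplicity z := by
  classical
  set F := f.map (algebraMap K (AlgebraicClosure K)) with hF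
  have hs : F.Splits := IsAlgClosed.splits F
  have hc : Multiset.card F.roots = q := by
    rw [← hs.natDegree_eq_card_roots, hF, natDegree_map, hq]
  obtain ⟨ρ, hρ⟩ := exists_enum F.roots q hc
  refine ⟨ρ, ?_, ?_⟩
  · have h1 := hs.eq_prod_roots
    rw [← hρ, Multiset.map_map, hF, leadingCoeff_map] at h1
    rw [hF]
    exact h1
  · intro z S hS
    rw [← count_roots, ← hρ, Multiset.count_map]
    have h2 : S ⊆ Finset.univ.filter fun i => z = ρ i := fun i hi =>
      Finset.mem_filter.2 ⟨Finset.mem_univ _, (hS i hi).symm⟩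
    exact Finset.card_le_card h2

variable {L : Type} [Field L] [Algebra K L]

omit [Algebra ℂ K] in
theorem fact_form (f : K[X]) (q : ℕ) (hq : f.natDegree = q) (ρ : Fin q → L)
    (hρ : f.map (algebraMap K L) = C (algebraMap K L f.leadingCoeff) * ∏ j, (X - C (ρ j)))
    (a b c : K) (hc : c ≠ 0) :
    (∑ i ∈ Finset.range (q + 1), C (f.coeff i * c ^ (q - i)) * (C a * X + C b) ^ i).map
      (algebraMap K L) = C (algebraMap K L f.leadingCoeff) *
        ∏ j, (C (algebraMap K L a) * X + C (algebraMap K L b - ρ j * algebraMap K L c)) := by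
  have hc' : algebraMap K L c ≠ 0 := (_root_.map_ne_zero _).2 hc
  set A : L[X] := C (algebraMap K L a) * X + C (algebraMap K L b) with hA
  have h1 : ∏ j, (C (algebraMap K L a) * X + C (algebraMap K L b - ρ j * algebraMap K L c)) =
      C (algebraMap K L c) ^ q * (∏ j, (X - C (ρ j))).comp (A * C (algebraMap K L c)⁻¹) := by
    rw [prod_comp]
    have h2 : C (algebraMap K L c) ^ q = ∏ _j : Fin q, C (algebraMap K L c) := by
      rw [Finset.prod_const, Finset.card_univ, Fintype.card_fin]
    rw [h2, ← Finset.prod_mul_distrib]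
    refine Finset.prod_congr rfl fun j _ => ?_
    rw [sub_comp, X_comp, C_comp, mul_sub, mul_left_comm, ← C_mul, mul_inv_cancel₀ hc', C_1,
      mul_one, hA, C_sub, C_mul]
    ring
  have h3 : C (algebraMap K L f.leadingCoeff) * (∏ j, (X - C (ρ j))).comp
      (A * C (algebraMap K L c)⁻¹) = (f.map (algebraMap K L)).comp
        (A * C (algebraMap K L c)⁻¹) := by
    rw [hρ, mul_comp, C_comp]
  rw [h1, mul_left_comm, h3, comp, eval₂_eq_sum_range, natDegree_map, hq, Polynomial.map_sum,
    Finset.mul_sum]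
  refine Finset.sum_congr rfl fun i hi => ?_
  have hi' : i ≤ q := Nat.lt_succ_iff.1 (Finset.mem_range.1 hi)
  rw [Polynomial.map_mul, Polynomial.map_pow, Polynomial.map_add, Polynomial.map_mul, map_C, map_C,
    map_C, map_X, ← hA, coeff_map, mul_pow, ← C_pow, ← C_pow, map_mul, map_pow, C_mul]
  have h4 : (algebraMap K L c) ^ q * (algebraMap K L c)⁻¹ ^ i = algebraMap K L c ^ (q - i) := by
    rw [inv_pow, ← div_eq_mul_inv, pow_sub₀ _ hc' hi', div_eq_mul_inv]
  rw [← h4, C_mul]
  ring

/-! ## integrality -/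

variable {R : Subalgebra ℂ K} {ξ : Derivation ℂ K K} {s : ℝ} {D : Fin 2 → Derivation ℂ K K} {P : K}

/-- all coefficients of a regular form in a regular frame are integral -/
theorem coeff_int {f : K[X]} {q : ℕ} (hreg : RegF R D q f) {u : RVal K}
    (hu : PDiv R u) {a b c : K} (h1 : URg u (b • D 0 + c • D 1)) (h2 : URg u (a • D 0)) (i : ℕ) :
    u.Ge 0 ((∑ i ∈ Finset.range (q + 1),
      C (f.coeff i * c ^ (q - i)) * (C a * X + C b) ^ i).coeff i) := by
  set g : K[X] := ∑ i ∈ Finset.range (q + 1),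
    C (f.coeff i * c ^ (q - i)) * (C a * X + C b) ^ i with hg
  have hdeg : g.natDegree < q + 1 := by
    refine Nat.lt_succ_iff.2 (natDegree_sum_le_of_forall_le _ _ fun j hj => ?_)
    refine (natDegree_C_mul_le _ _).trans ((natDegree_pow_le_of_le j
      (natDegree_linear_le (a := a) (b := b))).trans ?_)
    rw [mul_one]
    exact Nat.lt_succ_iff.1 (Finset.mem_range.1 hj)
  by_cases hi : i < q + 1
  · refine vdm u (q + 1) (fun k => g.coeff k) (fun z => ?_) ⟨i, hi⟩
    have h3 : ∑ k : Fin (q + 1), (z ^ (k : ℕ)) • g.coeff k = ev f q (z • a + b) c := by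
      rw [Fin.sum_univ_eq_sum_range (fun k => z ^ k • g.coeff k) (q + 1)]
      have h4 := eval_eq_sum_range' hdeg (algebraMap ℂ K z)
      have h5 : ∑ k ∈ Finset.range (q + 1), z ^ k • g.coeff k = g.eval (algebraMap ℂ K z) := by
        rw [h4]
        refine Finset.sum_congr rfl fun k _ => ?_
        rw [Algebra.smul_def, map_pow, mul_comm]
      rw [h5, hg, eval_finsetSum, ev]
      refine Finset.sum_congr rfl fun k _ => ?_
      rw [eval_mul, eval_C, eval_pow, eval_add, eval_mul, eval_C, eval_C, eval_X, Algebra.smul_def]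
      ring
    rw [h3]
    refine hreg u hu _ _ fun F hF => ?_
    have h6 : ((z • a + b) • D 0 + c • D 1) F = z • (a • D 0) F + (b • D 0 + c • D 1) F := by
      simp only [Derivation.add_apply, Derivation.smul_apply, smul_eq_mul, Algebra.smul_def]
      ring
    rw [h6]
    exact u.ge_add (u.ge_smul z (h2 F hF)) (h1 F hF)
  · rw [coeff_eq_zero_of_natDegree_lt (hdeg.trans_le (not_lt.1 hi))]
    exact Or.inl rfl

theorem key (hPOL : S_POL) (hLAT : S_LAT) (hCON : S_CON) (hC : IsCone R ξ) (hFr : Fr R ξ s D P)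
    {f : K[X]} {q : ℕ} (hq : f.natDegree = q) (hreg : RegF R D q f) {u : RVal K}
    (hu : PDiv R u) {L : Type} [Field L] [Algebra K L] (V : ValuationSubring L)
    (hV : ∀ x : K, algebraMap K L x ∈ V ↔ u.Ge 0 x) (ρ : Fin q → L)
    (hρ : f.map (algebraMap K L) = C (algebraMap K L f.leadingCoeff) * ∏ j, (X - C (ρ j)))
    (σ : Equiv.Perm (Fin q)) :
    algebraMap K L (P ^ q * f.leadingCoeff ^ 2) * ∏ i, (ρ i - ρ (σ i)) ∈ V := by
  have h0 : D 0 ≠ 0 := by
    intro h
    exact one_ne_zero (hFr.ind 1 0 (by rw [h, smul_zero, zero_smul, add_zero])).1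
  obtain ⟨t, ht⟩ := hPOL K R ξ hC u hu (D 0) h0
  have ht' : Pole u ((1 : K) • D 0 + (0 : K) • D 1) t := by
    rw [one_smul, zero_smul, add_zero]
    exact ht
  obtain ⟨x', y', h1, h2, h3⟩ := hLAT K R ξ s D P hC hFr u hu 1 0 t ht'
  rw [one_mul, zero_mul, sub_zero] at h2 h3
  obtain ⟨p, _, hp0, hp1⟩ := hu.unif
  have hpt0 : p ^ t ≠ 0 := zpow_ne_zero _ hp0
  have hpt : u.val (p ^ t) = t := by rw [val_zpow u hp0, hp1, mul_one]
  have hE : URg u ((p ^ t) • D 0) := by
    intro F hF
    have h4 := ge_mul u (x := p ^ t) (a := t) (Or.inr hpt.ge) (ht.1 F hF)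
    rw [add_neg_cancel] at h4
    exact h4
  have h5 := hCON L V q (fun _ => algebraMap K L (p ^ t))
    (fun j => algebraMap K L x' - ρ j * algebraMap K L y') (algebraMap K L f.leadingCoeff) σ
    (fun i => by
      rw [← fact_form f q hq ρ hρ (p ^ t) x' y' h2, coeff_map]
      exact (hV _).2 (coeff_int hreg hu h1 hE i))
  have h6 : ∏ i, (algebraMap K L (p ^ t) * (algebraMap K L x' - ρ (σ i) * algebraMap K L y') -
      (algebraMap K L x' - ρ i * algebraMap K L y') * algebraMap K L (p ^ t)) =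
      (algebraMap K L (p ^ t * y')) ^ q * ∏ i, (ρ i - ρ (σ i)) := by
    have h7 : (algebraMap K L (p ^ t * y')) ^ q = ∏ _i : Fin q, algebraMap K L (p ^ t * y') := by
      rw [Finset.prod_const, Finset.card_univ, Fintype.card_fin]
    rw [h7, ← Finset.prod_mul_distrib]
    refine Finset.prod_congr rfl fun i _ => ?_
    rw [map_mul]
    ring
  rw [h6] at h5
  have h8 : u.Ge 0 (P / (p ^ t * y')) := by
    refine Or.inr ?_
    have hd : p ^ t * y' ≠ 0 := mul_ne_zero hpt0 h2
    rw [div_eq_mul_inv, u.map_mul _ _ hFr.ne (inv_ne_zero hd), val_inv u hd,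
      u.map_mul _ _ hpt0 h2, hpt]
    linarith
  have h9 : (algebraMap K L (P / (p ^ t * y'))) ^ q ∈ V := V.pow_mem ((hV _).2 h8) q
  have h10 := V.mul_mem _ _ h9 h5
  have hd : p ^ t * y' ≠ 0 := mul_ne_zero hpt0 h2
  have h11 : algebraMap K L (P ^ q * f.leadingCoeff ^ 2) * ∏ i, (ρ i - ρ (σ i)) =
      (algebraMap K L (P / (p ^ t * y'))) ^ q * ((algebraMap K L f.leadingCoeff) ^ 2 *
        ((algebraMap K L (p ^ t * y')) ^ q * ∏ i, (ρ i - ρ (σ i)))) := by
    have h12 : P ^ q = (P / (p ^ t * y')) ^ q * (p ^ t * y') ^ q := by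
      rw [← mul_pow, div_mul_cancel₀ _ hd]
    rw [h12, map_mul, map_mul, map_pow, map_pow, map_pow]
    ring
  rw [h11]
  exact h10

/-! ## the norm -/

/-- the roots of a homogeneous form are algebraic over the constants -/
theorem root_alg {f : K[X]} (hf : f ≠ 0) {M : ℝ}
    (hM : ∀ i, ξ (f.coeff i) = (M : ℂ) • f.coeff i) {L : Type} [Field L] [Algebra K L] {z : L}
    (hz : aeval z f = 0) : IsAlgebraic (K0 ξ) z := by
  have hl : f.leadingCoeff ≠ 0 := leadingCoeff_ne_zero.2 hf
  have h1 : ∀ i, ξ (f.leadingCoeff⁻¹ * f.coeff i) = 0 := by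
    intro i
    rw [Derivation.leibniz, Derivation.leibniz_inv, hM i, leadingCoeff, hM f.natDegree]
    rw [leadingCoeff] at hl
    simp only [smul_eq_mul]
    simp only [Algebra.smul_def]
    field_simp
    ring
  have h2 : C f.leadingCoeff⁻¹ * f ∈ Polynomial.lifts (algebraMap (K0 ξ) K) :=
    (Polynomial.lifts_iff_coeff_lifts _).2 fun i =>
      ⟨⟨f.leadingCoeff⁻¹ * f.coeff i, h1 i⟩, by rw [coeff_C_mul]; rfl⟩
  obtain ⟨p, hp⟩ := (Polynomial.mem_lifts _).1 h2
  refine ⟨p, ?_, ?_⟩
  · rintro rfl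
    rw [Polynomial.map_zero] at hp
    exact mul_ne_zero (C_ne_zero.2 (inv_ne_zero hl)) hf hp.symm
  · have h3 := congrArg (aeval z) hp
    rw [aeval_map_algebraMap, map_mul, hz, mul_zero] at h3
    exact h3

theorem eig_pow {x : K} {w : ℝ} (h : ξ x = (w : ℂ) • x) (n : ℕ) :
    ξ (x ^ n) = ((n * w : ℝ) : ℂ) • x ^ n := by
  induction n with
  | zero =>
    rw [pow_zero, ξ.map_one_eq_zero, Nat.cast_zero, zero_mul, Complex.ofReal_zero, zero_smul]
  | succ n ih =>
    rw [pow_succ, Derivation.leibniz, ih, h]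
    simp only [smul_eq_mul]
    simp only [Algebra.smul_def]
    push_cast
    ring

theorem eig_mul {x y : K} {w w' : ℝ} (h : ξ x = (w : ℂ) • x) (h' : ξ y = (w' : ℂ) • y) :
    ξ (x * y) = ((w + w' : ℝ) : ℂ) • (x * y) := by
  rw [Derivation.leibniz, h, h']
  simp only [smul_eq_mul]
  simp only [Algebra.smul_def]
  push_cast
  ring

theorem s_NM (hPOL : S_POL) (hLAT : S_LAT) (hPRM : S_PRM) (hCON : S_CON) : S_NM := by
  intro K _ _ R ξ s D P hC hN hFr f q M hq hf hM hreg hmult
  set L := AlgebraicClosure K with hL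
  obtain ⟨ρ, hρ, hcard⟩ := exists_roots f q hq
  obtain ⟨σ, hσ⟩ := hPRM q L ρ fun z S hS =>
    (Nat.mul_le_mul_left 2 (hcard z S hS)).trans (hmult z)
  set θ : L := ∏ i, (ρ i - ρ (σ i)) with hθ
  have hθ0 : θ ≠ 0 := Finset.prod_ne_zero_iff.2 fun i _ => sub_ne_zero.2 (hσ i).symm
  have hint : IsIntegral K θ := Algebra.IsIntegral.isIntegral θ
  have hl : f.leadingCoeff ≠ 0 := leadingCoeff_ne_zero.2 hf
  set m := minpoly K θ with hm
  set n := m.natDegree with hn
  have hn0 : 0 < n := minpoly.natDegree_pos hint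
  have hN0 : m.coeff 0 ≠ 0 := minpoly.coeff_zero_ne_zero hint hθ0
  set c := P ^ q * f.leadingCoeff ^ 2 with hc
  have hc0 : c ≠ 0 := mul_ne_zero (pow_ne_zero _ hFr.ne) (pow_ne_zero _ hl)
  have hNn0 : c ^ n * m.coeff 0 ≠ 0 := mul_ne_zero (pow_ne_zero _ hc0) hN0
  set T := (m.map (algebraMap K L)).roots with hT
  have hsp : (m.map (algebraMap K L)).Splits := IsAlgClosed.splits _
  have hmon : (m.map (algebraMap K L)).Monic := (minpoly.monic hint).map _
  have hTc : Multiset.card T = n := by rw [hT, ← hsp.natDegree_eq_card_roots, natDegree_map]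
  have hN0' : algebraMap K L (m.coeff 0) = (-1) ^ n * T.prod := by
    have h1 := hsp.coeff_zero_eq_prod_roots_of_monic hmon
    rw [coeff_map, natDegree_map] at h1
    exact h1
  -- the conjugates of `θ`
  have hconj : ∀ z ∈ T, ∃ ρ' : Fin q → L, z = ∏ i, (ρ' i - ρ' (σ i)) ∧
      f.map (algebraMap K L) = C (algebraMap K L f.leadingCoeff) * ∏ j, (X - C (ρ' j)) := by
    intro z hz
    have h1 : aeval z m = 0 := by
      rw [aeval_def, ← eval_map]
      exact (mem_roots'.1 hz).2
    obtain ⟨g, hg⟩ := isConjRoot_iff_exists_algEquiv.1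
      ((isConjRoot_of_aeval_eq_zero hint h1).symm : IsConjRoot K z θ)
    refine ⟨fun i => g (ρ i), ?_, ?_⟩
    · rw [← hg, hθ, map_prod]
      simp only [map_sub]
    · have h2 := congrArg (Polynomial.map (g : L →+* L)) hρ
      rw [Polynomial.map_map, Polynomial.map_mul, Polynomial.map_prod, map_C] at h2
      simp only [Polynomial.map_sub, map_X, map_C] at h2
      have h3 : (g : L →+* L).comp (algebraMap K L) = algebraMap K L := by
        ext x
        exact g.commutes x
      rw [h3] at h2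
      have h4 : (g : L →+* L) (algebraMap K L f.leadingCoeff) = algebraMap K L f.leadingCoeff :=
        g.commutes _
      rw [h4] at h2
      exact h2
  -- regularity
  have hreg1 : c ^ n * m.coeff 0 ∈ R := by
    by_contra hcon
    obtain ⟨u, hu, hux⟩ := Pool.Agent.Helper11.D4.s_EX1 K R hC.frac hC.fg hN _ hcon
    obtain ⟨V, hV⟩ := exists_val u L
    have h1 : ∀ z ∈ T, algebraMap K L c * z ∈ V := by
      intro z hz
      obtain ⟨ρ', rfl, hρ'⟩ := hconj z hz
      exact key hPOL hLAT hCON hC hFr hq hreg hu V hV ρ' hρ' σ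
    have h2 : algebraMap K L (c ^ n * m.coeff 0) =
        (-1) ^ n * (T.map fun z => algebraMap K L c * z).prod := by
      rw [map_mul, hN0', Multiset.prod_map_mul, Multiset.map_const', Multiset.prod_replicate, hTc,
        Multiset.map_id', map_pow]
      ring
    have h3 : algebraMap K L (c ^ n * m.coeff 0) ∈ V := by
      rw [h2]
      refine V.mul_mem _ _ (V.pow_mem (V.neg_mem _ V.one_mem) _) ?_
      refine multiset_prod_mem _ fun w hw => ?_
      obtain ⟨z, hz, rfl⟩ := Multiset.mem_map.1 hw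
      exact h1 z hz
    rcases (hV _).1 h3 with h4 | h4
    · exact hNn0 h4
    · exact not_lt.2 h4 hux
  -- the constant
  have hξ0 : ξ (m.coeff 0) = 0 := by
    refine const_of_alg ξ ?_
    have h1 : ∀ z ∈ T, IsAlgebraic (K0 ξ) z := by
      intro z hz
      obtain ⟨ρ', rfl, hρ'⟩ := hconj z hz
      have h2 : ∀ j, IsAlgebraic (K0 ξ) (ρ' j) := fun j => by
        refine root_alg hf hM ?_
        rw [aeval_def, ← eval_map, hρ', eval_mul, eval_prod,
          Finset.prod_eq_zero (Finset.mem_univ j) (by rw [eval_sub, eval_X, eval_C, sub_self]),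
          mul_zero]
      have h3 : ∏ i, (ρ' i - ρ' (σ i)) ∈ algebraicClosure (K0 ξ) L :=
        prod_mem fun i _ => sub_mem (mem_algebraicClosure_iff.2 (h2 i))
          (mem_algebraicClosure_iff.2 (h2 (σ i)))
      exact mem_algebraicClosure_iff.1 h3
    have h4 : algebraMap K L (m.coeff 0) ∈ algebraicClosure (K0 ξ) L := by
      rw [hN0']
      refine mul_mem (pow_mem (neg_mem (one_mem _)) _) ?_
      exact multiset_prod_mem _ fun z hz => mem_algebraicClosure_iff.2 (h1 z hz)
    exact (isAlgebraic_algebraMap_iff (algebraMap K L).injective).1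
      (mem_algebraicClosure_iff.1 h4)
  have hwt : ξ (c ^ n * m.coeff 0) =
      ((n * (q * (-s) + 2 * M) : ℝ) : ℂ) • (c ^ n * m.coeff 0) := by
    have h1 : ξ c = ((q * (-s) + 2 * M : ℝ) : ℂ) • c :=
      eig_mul (eig_pow hFr.wt q) (by
        have h2 := eig_pow (hM f.natDegree) 2
        rw [Nat.cast_ofNat] at h2
        exact h2)
    have h3 : ξ (m.coeff 0) = ((0 : ℝ) : ℂ) • m.coeff 0 := by
      rw [hξ0, Complex.ofReal_zero, zero_smul]
    have h4 := eig_mul (eig_pow h1 n) h3
    rw [add_zero] at h4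
    exact h4
  have h5 := Pool.Agent.Helper94.D4.eig_nonneg hC hreg1 hNn0 hwt
  have h6 : (0 : ℝ) < n := Nat.cast_pos.2 hn0
  have h7 : 0 ≤ q * (-s) + 2 * M := nonneg_of_mul_nonneg_right h5 h6
  linarith

end Pool.Agent.Helper85.D4.NM

namespace Pool.Agent.Helper85.D4

theorem s_NM (hPOL : Helper88.D4.S_POL) (hLAT : Helper88.D4.S_LAT) (hPRM : Helper88.D4.S_PRM)
    (hCON : Helper88.D4.S_CON) : Helper88.D4.S_NM := NM.s_NM hPOL hLAT hPRM hCON

end Pool.Agent.Helper85.D4
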