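import Pool.Agent.Helper85.D4.OmF
import Pool.Agent.Helper37.D4.OmE

/-!
# Project D4: the 2-form of the leading term of the bracket
-/

set_option autoImplicit false

namespace Pool.Agent.Helper85.D4

open Module Pool.Agent.Helper37.SD Pool.Agent.Helper88.D4

theorem s_OM : S_OM := by
  intro K _ _ R ξ J a s h hC hh
  obtain ⟨ω, hreg, hω⟩ := Pool.Agent.Helper37.D4.om_exists hC hh
  exact ⟨ω, hreg, om_closed hC hh hω hreg.alt, om_hom hC hh hω, om_ne hC hh hω,
    fun E hE hξ hJ hl => om_lio hC hω hE hξ hJ hl⟩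

end Pool.Agent.Helper85.D4
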