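import Pool.Agent.Helper85.D4.OmD

/-!
# Project D4, the 2-form of a bracket of two functions: Lie derivatives, closedness
-/

set_option autoImplicit false

namespace Pool.Agent.Helper85.D4

open Module Pool.Agent.Helper37.SD Pool.Agent.Helper88.D4 Pool.Agent.Helper12.D4

variable {K : Type} [Field K] [Algebra ℂ K] {R : Subalgebra ℂ K} {ξ : Derivation ℂ K K}
  {J : Bra K} {a s : ℝ} {h : K → Derivation ℂ K K} {ω : Form K}

/-! ## Lie derivatives -/

theorem lie_bra {D : Derivation ℂ K K} {c : ℂ} (hJ : HomBra D c J) (x y z : K) :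
    ⁅D, J x y z⁆ = J (D x) y z + J x (D y) z + J x y (D z) - c • J x y z := by
  ext t
  rw [Derivation.commutator_apply, hJ t x y z]
  simp only [Derivation.sub_apply, Derivation.add_apply, Derivation.smul_apply]
  ring

theorem om_lie (hC : Cone4 R ξ J a) (hω : OmF R ξ J h ω) {D : Derivation ℂ K K} {c c' : ℂ}
    (hD : ∀ b y, IsH R ξ b y → IsH R ξ b (D y)) (hJ : HomBra D c J)
    (hbr : ∀ b b' y z, IsH R ξ b y → IsH R ξ b' z →
      D (h y z) = h (D y) z + h y (D z) - c' • h y z) (A B : Derivation ℂ K K) :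
    D (ω A B) - ω ⁅D, A⁆ B - ω A ⁅D, B⁆ = (c - c') • ω A B := by
  have key : (Lf D ω).flip B = (algebraMap ℂ K (c - c')) • ω.flip B := by
    apply ext_h hC
    intro b₁ b₂ b₃ x y z hx hy hz
    rw [LinearMap.flip_apply, Lf_apply, LinearMap.smul_apply, LinearMap.flip_apply, lie_bra hJ,
      map_sub, map_add, map_add, LinearMap.sub_apply, LinearMap.add_apply, LinearMap.add_apply,
      hω _ _ _ _ _ _ (hD _ _ hx) hy hz, hω _ _ _ _ _ _ hx (hD _ _ hy) hz,
      hω _ _ _ _ _ _ hx hy (hD _ _ hz), hω _ _ _ _ _ _ hx hy hz ⁅D, B⁆]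
    have e1 : ω (c • J x y z) B = algebraMap ℂ K c * ω (J x y z) B := by
      rw [← algebraMap_smul K c (J x y z), map_smul, LinearMap.smul_apply, smul_eq_mul]
    rw [e1, hω _ _ _ _ _ _ hx hy hz B]
    simp only [map_add, Derivation.leibniz, Derivation.commutator_apply, smul_eq_mul,
      hbr _ _ _ _ hy hz, hbr _ _ _ _ hz hx, hbr _ _ _ _ hx hy, Algebra.smul_def, map_sub]
    ring
  have h1 := congrArg (fun α : Derivation ℂ K K →ₗ[K] K => α A) key
  simp only [LinearMap.flip_apply, LinearMap.smul_apply, Lf_apply] at h1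
  rw [h1, algebraMap_smul]

theorem h_smul (hh : IsPoi R ξ J s h) {b c : ℝ} {y z : K} (hy : IsH R ξ b y)
    (hz : IsH R ξ c z) (t : ℂ) : h (t • y) z = t • h y z := by
  have hty : IsH R ξ b (t • y) := by
    refine ⟨R.smul_mem hy.1 t, ?_⟩
    rw [Derivation.map_smul, hy.2, smul_comm]
  rw [hh.skew _ _ _ _ hty hz, Derivation.map_smul, hh.skew _ _ _ _ hy hz, smul_neg]

theorem om_hom (hC : Cone4 R ξ J a) (hh : IsPoi R ξ J s h) (hω : OmF R ξ J h ω) :
    HomForm ξ (a - s) ω := by
  intro A B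
  have h1 := om_lie hC hω (D := ξ) (c := (a : ℂ)) (c' := (s : ℂ)) (fun b y hy => by
      refine ⟨?_, ?_⟩
      · rw [hy.2]
        exact R.smul_mem hy.1 _
      · rw [hy.2, Derivation.map_smul, hy.2]) hC.hom (fun b b' y z hy hz => by
      rw [(hh.reg _ _ _ _ hy hz).2, hy.2, hz.2, h_smul hh hy hz, Derivation.map_smul,
        ← add_smul, ← sub_smul]
      push_cast
      rfl) A B
  rw [h1]
  push_cast
  rfl

theorem om_lio (hC : Cone4 R ξ J a) (hω : OmF R ξ J h ω) {E : Derivation ℂ K K}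
    (hE : Pres R E) (hξ : ⁅ξ, E⁆ = 0) (hJ : HomBra E 2 J) (hl : LioB R ξ h E) :
    HomForm E 1 ω := by
  intro A B
  have h1 := om_lie hC hω (D := E) (c := 2) (c' := 1) (fun b y hy => by
      refine ⟨hE y hy.1, ?_⟩
      have h2 := congrArg (fun D : Derivation ℂ K K => D y) hξ
      simp only [Derivation.commutator_apply, Derivation.zero_apply] at h2
      rw [sub_eq_zero.mp h2, hy.2, Derivation.map_smul]) hJ (fun b b' y z hy hz => by
      rw [hl _ _ _ _ hy hz, one_smul]) A B
  rw [h1]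
  norm_num

/-! ## closedness -/

theorem brk0 {z : Fin 4 → K} (hb : brk J z ≠ 0) (t : K) :
    J (z 1) (z 2) (z 3) t = brk J z * dfr J z 0 t := by
  change _ = brk J z * ((brk J z)⁻¹ • J (z 1) (z 2) (z 3)) t
  rw [Derivation.smul_apply, smul_eq_mul, mul_inv_cancel_left₀ hb]

theorem brk1 {z : Fin 4 → K} (hb : brk J z ≠ 0) (t : K) :
    J (z 0) (z 2) (z 3) t = -(brk J z * dfr J z 1 t) := by
  change _ = -(brk J z * (-(brk J z)⁻¹ • J (z 0) (z 2) (z 3)) t)
  rw [Derivation.smul_apply, smul_eq_mul]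
  field_simp

theorem brk2 {z : Fin 4 → K} (hb : brk J z ≠ 0) (t : K) :
    J (z 0) (z 1) (z 3) t = brk J z * dfr J z 2 t := by
  change _ = brk J z * ((brk J z)⁻¹ • J (z 0) (z 1) (z 3)) t
  rw [Derivation.smul_apply, smul_eq_mul, mul_inv_cancel_left₀ hb]

theorem brk3 {z : Fin 4 → K} (hb : brk J z ≠ 0) (t : K) :
    J (z 0) (z 1) (z 2) t = -(brk J z * dfr J z 3 t) := by
  change _ = -(brk J z * (-(brk J z)⁻¹ • J (z 0) (z 1) (z 2)) t)
  rw [Derivation.smul_apply, smul_eq_mul]
  field_simp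

/-- The divergence in a frame. -/
theorem div_frame (hA : IsAlt J) (ht : Algebra.trdeg ℂ K = 4) {z : Fin 4 → K}
    (hb : brk J z ≠ 0) {X : Derivation ℂ K K} (hX : HomBra X 0 J) :
    ∑ m, dfr J z m ((brk J z)⁻¹ * X (z m)) = 0 := by
  have h1 : X (brk J z) = brk J z * ∑ m, dfr J z m (X (z m)) := by
    have e := hX (z 0) (z 1) (z 2) (z 3)
    rw [zero_smul, sub_zero, l1 hA (z 0) (X (z 1)) (z 2) (z 3),
      l2 hA (z 0) (z 1) (X (z 2)) (z 3), l3 hA (z 0) (z 1) (z 2) (X (z 3)),
      brk0 hb (X (z 0)), brk1 hb (X (z 1)), brk2 hb (X (z 2)), brk3 hb (X (z 3))] at e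
    change X (brk J z) = _ at e
    rw [e, Fin.sum_univ_four]
    ring
  have h2 : X (brk J z) = ∑ m, X (z m) * dfr J z m (brk J z) := frame_apply hA ht hb X _
  have h3 : ∀ m, dfr J z m ((brk J z)⁻¹ * X (z m)) =
      (brk J z)⁻¹ * dfr J z m (X (z m)) -
        (brk J z)⁻¹ ^ 2 * (X (z m) * dfr J z m (brk J z)) := by
    intro m
    rw [Derivation.leibniz, Derivation.leibniz_inv, smul_eq_mul, smul_eq_mul, smul_eq_mul]
    ring
  rw [Finset.sum_congr rfl fun m _ => h3 m, Finset.sum_sub_distrib, ← Finset.mul_sum,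
    ← Finset.mul_sum, ← h2, h1]
  field_simp
  ring

theorem dform_smul3 (ha : ∀ D, ω D D = 0) (f g k : K) (A B C : Derivation ℂ K K) :
    dform ω (f • A) (g • B) (k • C) = f * g * k * dform ω A B C := by
  have h1 : ∀ (f : K) (A B C : Derivation ℂ K K), dform ω (f • A) B C = f * dform ω A B C := by
    intro f A B C
    obtain ⟨α, hα⟩ := dform_fst (ω := ω) B C
    rw [← hα, map_smul, hα, smul_eq_mul]
  have h2 : ∀ (f : K) (A B C : Derivation ℂ K K), dform ω A (f • B) C = f * dform ω A B C := by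
    intro f A B C
    rw [dform_swap ha, h1, dform_swap ha B A C]
    ring
  have h3 : ∀ (f : K) (A B C : Derivation ℂ K K), dform ω A B (f • C) = f * dform ω A B C := by
    intro f A B C
    rw [dform_swap' ha, h2, dform_swap' ha A C B]
    ring
  rw [h1, h2, h3]
  ring

theorem alt3_zero (g : Fin 4 → Fin 4 → Fin 4 → K) (h12 : ∀ i j k, g i j k = -g j i k)
    (h23 : ∀ i j k, g i j k = -g i k j) (d012 : g 0 1 2 = 0) (d013 : g 0 1 3 = 0)
    (d023 : g 0 2 3 = 0) (d123 : g 1 2 3 = 0) (i j k : Fin 4) : g i j k = 0 := by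
  have e12 : ∀ i k, g i i k = 0 := fun i k => K2 (h12 i i k)
  have e23 : ∀ i k, g i k k = 0 := fun i k => K2 (h23 i k k)
  have e13 : ∀ i k, g i k i = 0 := fun i k => by rw [h23, e12, neg_zero]
  fin_cases i <;> fin_cases j <;> fin_cases k <;>
    simp only [Fin.zero_eta, Fin.mk_one, Fin.reduceFinMk, Fin.isValue] <;>
    first
      | exact e12 _ _
      | exact e23 _ _
      | exact e13 _ _
      | assumption
      | (rw [h12]; simp only [d012, d013, d023, d123, neg_zero])
      | (rw [h23]; simp only [d012, d013, d023, d123, neg_zero])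
      | (rw [h12, h23]; simp only [d012, d013, d023, d123, neg_zero])
      | (rw [h23, h12]; simp only [d012, d013, d023, d123, neg_zero])
      | (rw [h12, h23, h12]; simp only [d012, d013, d023, d123, neg_zero])

theorem om_closed (hC : Cone4 R ξ J a) (hh : IsPoi R ξ J s h) (hω : OmF R ξ J h ω)
    (ha : ∀ D, ω D D = 0) : Closed ω := by
  obtain ⟨z, b, hz, hb⟩ := ex_hframe hC.toIsCone hC.alt
  have hA := hC.alt
  have happ : ∀ i j, dfr J z i (z j) = if i = j then 1 else 0 := dfr_apply hA hb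
  have hz0 : ∀ i, z i ≠ 0 := by
    intro i h0
    have := happ i i
    rw [h0, map_zero, if_pos rfl] at this
    exact zero_ne_one this
  have hfr : IsFrame (fun i => z i • dfr J z i) z := by
    refine ⟨hz0, fun i j => ?_, fun E => ?_⟩
    · rw [Derivation.smul_apply, happ, smul_eq_mul]
      split_ifs with hij
      · rw [hij, mul_one]
      · rw [mul_zero]
    · conv_lhs => rw [dfr_sum hA hC.trdeg hb E]
      refine Finset.sum_congr rfl fun i _ => ?_
      rw [smul_smul, div_mul_cancel₀ _ (hz0 i)]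
  have hcomm : ∀ i j, ⁅dfr J z i, dfr J z j⁆ = 0 := by
    intro i j
    ext f
    rw [Derivation.commutator_apply, frame_comm hA hC.trdeg hb, sub_self,
      Derivation.zero_apply]
  have hd : ∀ i j k, dform ω (dfr J z i) (dfr J z j) (dfr J z k) =
      dfr J z i (ω (dfr J z j) (dfr J z k)) - dfr J z j (ω (dfr J z i) (dfr J z k)) +
        dfr J z k (ω (dfr J z i) (dfr J z j)) := by
    intro i j k
    simp only [dform, hcomm, map_zero, LinearMap.zero_apply, sub_zero, add_zero]
  have hself : ∀ i, h (z i) (z i) = 0 := fun i => K2 (hh.skew _ _ _ _ (hz i) (hz i))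
  have hskew : ∀ i j, h (z i) (z j) = -h (z j) (z i) := fun i j =>
    hh.skew _ _ _ _ (hz i) (hz j)
  -- the values of the form
  have w0 : ∀ A, ω (dfr J z 0) A = (brk J z)⁻¹ *
      (A (z 1) * h (z 2) (z 3) + A (z 2) * h (z 3) (z 1) + A (z 3) * h (z 1) (z 2)) := by
    intro A
    change ω ((brk J z)⁻¹ • J (z 1) (z 2) (z 3)) A = _
    rw [map_smul, LinearMap.smul_apply, smul_eq_mul, hω _ _ _ _ _ _ (hz 1) (hz 2) (hz 3)]
  have w1 : ∀ A, ω (dfr J z 1) A = -(brk J z)⁻¹ *
      (A (z 0) * h (z 2) (z 3) + A (z 2) * h (z 3) (z 0) + A (z 3) * h (z 0) (z 2)) := by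
    intro A
    change ω (-(brk J z)⁻¹ • J (z 0) (z 2) (z 3)) A = _
    rw [map_smul, LinearMap.smul_apply, smul_eq_mul, hω _ _ _ _ _ _ (hz 0) (hz 2) (hz 3)]
  have w2 : ∀ A, ω (dfr J z 2) A = (brk J z)⁻¹ *
      (A (z 0) * h (z 1) (z 3) + A (z 1) * h (z 3) (z 0) + A (z 3) * h (z 0) (z 1)) := by
    intro A
    change ω ((brk J z)⁻¹ • J (z 0) (z 1) (z 3)) A = _
    rw [map_smul, LinearMap.smul_apply, smul_eq_mul, hω _ _ _ _ _ _ (hz 0) (hz 1) (hz 3)]
  have hdiv : ∀ l, ∑ m, dfr J z m ((brk J z)⁻¹ * h (z l) (z m)) = 0 := fun l =>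
    div_frame hA hC.trdeg hb (hh.div _ _ (hz l))
  have d012 : dform ω (dfr J z 0) (dfr J z 1) (dfr J z 2) = 0 := by
    have h1 := hdiv 3
    rw [Fin.sum_univ_four, hself, mul_zero, map_zero, add_zero] at h1
    rw [hd, w1, w0, w0]
    simp only [happ]
    simp only [Fin.isValue, Fin.reduceEq, if_true, if_false, zero_mul, one_mul, zero_add,
      add_zero]
    rw [hskew 2 3]
    simp only [mul_neg, neg_mul, map_neg]
    linear_combination -h1
  have d013 : dform ω (dfr J z 0) (dfr J z 1) (dfr J z 3) = 0 := by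
    have h1 := hdiv 2
    rw [Fin.sum_univ_four, hself, mul_zero, map_zero, add_zero] at h1
    rw [hd, w1, w0, w0]
    simp only [happ]
    simp only [Fin.isValue, Fin.reduceEq, if_true, if_false, zero_mul, one_mul, zero_add,
      add_zero]
    rw [hskew 0 2, hskew 1 2]
    simp only [mul_neg, neg_mul, map_neg, neg_neg]
    linear_combination h1
  have d023 : dform ω (dfr J z 0) (dfr J z 2) (dfr J z 3) = 0 := by
    have h1 := hdiv 1
    rw [Fin.sum_univ_four, hself, mul_zero, map_zero, add_zero] at h1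
    rw [hd, w2, w0, w0]
    simp only [happ]
    simp only [Fin.isValue, Fin.reduceEq, if_true, if_false, zero_mul, one_mul, zero_add,
      add_zero]
    rw [hskew 0 1, hskew 3 1]
    simp only [mul_neg, map_neg]
    linear_combination -h1
  have d123 : dform ω (dfr J z 1) (dfr J z 2) (dfr J z 3) = 0 := by
    have h1 := hdiv 0
    rw [Fin.sum_univ_four, hself, mul_zero, map_zero, zero_add] at h1
    rw [hd, w2, w1, w1]
    simp only [happ]
    simp only [Fin.isValue, Fin.reduceEq, if_true, if_false, zero_mul, one_mul, zero_add,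
      add_zero]
    rw [hskew 3 0]
    simp only [mul_neg, neg_mul, map_neg, neg_neg]
    linear_combination h1
  refine closed_of_frame ha hfr fun i j k => ?_
  rw [dform_smul3 ha, alt3_zero (fun i j k => dform ω (dfr J z i) (dfr J z j) (dfr J z k))
    (fun i j k => dform_swap ha _ _ _) (fun i j k => dform_swap' ha _ _ _) d012 d013 d023 d123
    i j k, mul_zero]

end Pool.Agent.Helper85.D4
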