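import Pool.Agent.Helper85.D4.Tame
import Pool.Agent.Helper88.D4.Stmts2

/-!
# D4: logarithmic derivations at a bounded discrete valuation (S_TAMEb)
-/

set_option autoImplicit false

namespace Pool.Agent.Helper85.D4

open Module Pool.Agent.Helper37.SD Pool.Agent.Helper88.D4

variable {K : Type} [Field K] [Algebra ℂ K]

/-- The valuation `t u`. -/
def scl (u : RVal K) (t : ℝ) (ht : 0 < t) : RVal K where
  val := fun x => t * u.val x
  map_mul := fun x y hx hy => by rw [u.map_mul x y hx hy, mul_add]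
  map_add := fun x y hx hy hxy => by
    rw [← mul_min_of_nonneg _ _ ht.le]
    exact mul_le_mul_of_nonneg_left (u.map_add x y hx hy hxy) ht.le
  map_const := fun z hz => by rw [u.map_const z hz, mul_zero]

theorem scl_val (u : RVal K) (t : ℝ) (ht : 0 < t) (x : K) : (scl u t ht).val x = t * u.val x := rfl

theorem scl_ge (u : RVal K) (t : ℝ) (ht : 0 < t) (c : ℝ) (x : K) :
    (scl u t ht).Ge (t * c) x ↔ u.Ge c x := by
  unfold RVal.Ge
  rw [scl_val, mul_le_mul_iff_right₀ ht]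

/-- The values of a nontrivial discrete valuation are the multiples of a positive number. -/
theorem exists_scale (u : RVal K) {q : ℝ} (hq : 0 < q) (hd : ∀ x, x ≠ 0 → ∃ n : ℤ, u.val x = n * q)
    {g : K} (hg0 : g ≠ 0) (hg : 0 < u.val g) :
    ∃ (t : ℝ) (_ : 0 < t) (p : K), p ≠ 0 ∧ u.val p = t ∧ ∀ x, x ≠ 0 → ∃ n : ℤ, u.val x = n * t := by
  classical
  have hex : ∃ n : ℕ, 0 < n ∧ ∃ x, x ≠ 0 ∧ u.val x = n * q := by
    obtain ⟨n, hn⟩ := hd g hg0
    have h1 : 0 < n := by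
      rw [hn] at hg
      have h2 : (0 : ℝ) < n := by
        by_contra h3
        push Not at h3
        have h4 := mul_nonpos_of_nonpos_of_nonneg h3 hq.le
        linarith
      exact_mod_cast h2
    refine ⟨n.toNat, by omega, g, hg0, ?_⟩
    rw [hn]
    congr 1
    have h2 : ((n.toNat : ℤ) : ℝ) = (n : ℝ) := by rw [Int.toNat_of_nonneg h1.le]
    rw [← h2, Int.cast_natCast]
  obtain ⟨hm0, p, hp0, hp⟩ := Nat.find_spec hex
  set m := Nat.find hex with hm
  have hmin : ∀ k : ℕ, 0 < k → (∃ x, x ≠ 0 ∧ u.val x = k * q) → m ≤ k :=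
    fun k hk hx => Nat.find_min' hex ⟨hk, hx⟩
  refine ⟨m * q, by positivity, p, hp0, hp, ?_⟩
  intro x hx
  obtain ⟨n, hn⟩ := hd x hx
  have h1 : n % (m : ℤ) = 0 := by
    by_contra h2
    have h3 : 0 < n % (m : ℤ) := lt_of_le_of_ne (Int.emod_nonneg _ (by omega)) (Ne.symm h2)
    have h4 : n % (m : ℤ) < m := Int.emod_lt_of_pos _ (by omega)
    have hy0 : x * p ^ (-(n / (m : ℤ))) ≠ 0 := mul_ne_zero hx (zpow_ne_zero _ hp0)
    have h5 : u.val (x * p ^ (-(n / (m : ℤ)))) = ((n % (m : ℤ)).toNat : ℕ) * q := by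
      rw [u.map_mul _ _ hx (zpow_ne_zero _ hp0), val_zpow u hp0, hn, hp]
      have h6 : (((n % (m : ℤ)).toNat : ℤ) : ℝ) = ((n % (m : ℤ) : ℤ) : ℝ) := by
        rw [Int.toNat_of_nonneg h3.le]
      rw [Int.cast_natCast] at h6
      rw [h6, Int.emod_def]
      push_cast
      ring
    have h7 := hmin _ (by omega) ⟨_, hy0, h5⟩
    omega
  refine ⟨n / (m : ℤ), ?_⟩
  rw [hn]
  have h2 : (n : ℝ) = ((n / (m : ℤ) * (m : ℤ) : ℤ) : ℝ) := by
    rw [Int.ediv_mul_cancel (Int.dvd_of_emod_eq_zero h1)]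
  rw [h2]
  push_cast
  ring

theorem s_TAMEb : S_TAMEb := by
  intro K _ _ htr u hu y hy g hg0 hg D hDg hDy
  obtain ⟨q, hq, hd⟩ := hu.disc
  obtain ⟨B, hB⟩ := hu.bdd D
  obtain ⟨t, ht, p, hp0, hp, hall⟩ := exists_scale u hq hd hg0 hg
  have hti : 0 < t⁻¹ := inv_pos.mpr ht
  have htt : t⁻¹ * t = 1 := inv_mul_cancel₀ ht.ne'
  have hint : ∀ x, x ≠ 0 → ∃ n : ℤ, (scl u t⁻¹ hti).val x = n := by
    intro x hx
    obtain ⟨n, hn⟩ := hall x hx
    refine ⟨n, ?_⟩
    rw [scl_val, hn, mul_comm (n : ℝ) t, ← mul_assoc, htt, one_mul]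
  have hp1 : (scl u t⁻¹ hti).val p = 1 := by rw [scl_val, hp, htt]
  have hy' : RInd (scl u t⁻¹ hti) y := by
    intro P hP
    obtain ⟨h1, h2⟩ := hy P hP
    exact ⟨h1, by rw [scl_val, h2, mul_zero]⟩
  have hB' : ∀ x, x ≠ 0 → (scl u t⁻¹ hti).Ge (t⁻¹ * (-B)) (D x / x) := by
    intro x hx
    rw [scl_ge]
    have h1 := u.ge_div (hB x hx) hx
    have h2 : u.val x - B - u.val x = -B := by ring
    rwa [h2] at h1
  have h1 : LogDer (scl u t⁻¹ hti) D := by
    refine tame_core htr (scl u t⁻¹ hti) hint hp0 hp1 hy' hg0 ?_ hB' ?_ ?_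
    · rw [scl_val]
      positivity
    · rw [scl_val, scl_ge]
      exact hDg
    · intro i
      have h2 := (scl_ge u t⁻¹ hti 0 (D (y i))).mpr (hDy i)
      rwa [mul_zero] at h2
  intro x hx
  have h2 := h1 x hx
  rw [scl_val, scl_ge] at h2
  exact h2

end Pool.Agent.Helper85.D4
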